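import Pool.Agent.Lib.MP_fb520c_co.Fat.Defs

/-! From squares to densities, and the numerical conditions. -/

set_option autoImplicit false

open MeasureTheory Set Real Filter Topology Metric
open scoped ENNReal

noncomputable section

namespace Pool.Agent.Lib.MP_fb520c_co

theorem dens {C : Set Plane} (hC : IsCompact C) (h0 : volume C ≠ 0) {R H K : ℝ} (hR : 0 < R)
    (hM : ∀ z ∈ C, ‖z‖ ≤ R) (hH : 0 < H)
    (hloc : ∀ (ι : Type) [Fintype ι] (g : ι → Plane ≃ᵢ Plane) (o : Plane) (L : ℝ), 0 < L →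
      (∀ z ∈ sq o L, ∃ i, z ∈ g i '' C) → 4 * L ^ 2 ≤ Fintype.card ι * H + K)
    {𝒜 : Set (Set Plane)} (h1 : IsCongruentFamily C 𝒜) (h2 : IsCovering 𝒜) :
    ENNReal.ofReal ((volume C).toReal / H) ≤ lowerDensity 𝒜 := by
  classical
  choose! g hg using h1
  refine le_of_tendsto (tendsto_quad _ _ (-R) (-K) hH) ?_
  filter_upwards [eventually_gt_atTop R] with L hL
  have hL0 : 0 < L := by linarith
  refine le_lower (2 * L) fun r hr => ?_
  have e0 : ∀ A : {A : Set Plane // A ∈ 𝒜 ∧ A ⊆ closedBall 0 r}, volume A.1 = volume C := fun A => by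
    rw [hg A.1 A.2.1, volume_isometry_image _ hC.measurableSet]
  simp only [tot, e0]
  rcases finite_or_infinite {A : Set Plane // A ∈ 𝒜 ∧ A ⊆ closedBall 0 r} with hf | hf
  swap
  · rw [ENNReal.tsum_const_eq_top_of_ne_zero h0]; exact le_top
  have := Fintype.ofFinite {A : Set Plane // A ∈ 𝒜 ∧ A ⊆ closedBall 0 r}
  have e2 : ENNReal.ofReal ((4 * (L + -R) ^ 2 + -K) / H) *
      volume (closedBall (0 : Plane) (r - 2 * L)) ≤
      (Fintype.card {A : Set Plane // A ∈ 𝒜 ∧ A ⊆ closedBall 0 r} : ℝ≥0∞) *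
        ENNReal.ofReal (4 * L ^ 2) := by
    rw [← lintegral_count (fun A : {A : Set Plane // A ∈ 𝒜 ∧ A ⊆ closedBall 0 r} => g A.1 0) hL0.le,
      ← setLIntegral_const, ← lintegral_indicator measurableSet_closedBall]
    refine lintegral_mono fun o => ?_
    by_cases ho : o ∈ closedBall (0 : Plane) (r - 2 * L)
    swap
    · rw [indicator_of_notMem ho]; exact zero_le
    rw [indicator_of_mem ho]
    have := hloc ↥(Finset.univ.filter fun A : {A : Set Plane // A ∈ 𝒜 ∧ A ⊆ closedBall 0 r} =>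
      o ∈ sq (g A.1 0) L) (fun A => g A.1.1) o (L + -R) (by linarith)
      (fun z hz => by
        obtain ⟨A, hA, hzA⟩ : z ∈ ⋃₀ 𝒜 := by rw [h2]; trivial
        have k1 : ‖z - g A 0‖ ≤ R := norm_sub_le_of_mem hM _ (by rwa [← hg A hA])
        have k2 : A ⊆ closedBall 0 r := fun y hy => by
          have k3 : ‖y - g A 0‖ ≤ R := norm_sub_le_of_mem hM _ (by rwa [← hg A hA])
          have k4 := dist_of_mem_sq hz
          rw [mem_closedBall_zero_iff] at ho ⊢
          have k5 := norm_add₃_le (a := y - g A 0) (b := -(z - g A 0)) (c := z - o)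
          have k6 := norm_add_le (y - o) o
          rw [norm_neg, show y - g A 0 + -(z - g A 0) + (z - o) = y - o by abel] at k5
          rw [sub_add_cancel] at k6
          linarith
        refine ⟨⟨⟨A, hA, k2⟩, Finset.mem_filter.2 ⟨Finset.mem_univ _, sq_symm ?_⟩⟩,
          by rwa [← hg A hA]⟩
        have := mem_sq_of_near (sq_symm hz) (z := g A 0) (M := R) (by rwa [norm_sub_rev])
        rwa [neg_add_cancel_right] at this)
    rw [← ENNReal.ofReal_natCast]
    refine ENNReal.ofReal_le_ofReal ((div_le_iff₀ hH).2 ?_)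
    rw [Fintype.card_coe] at this
    linarith
  rw [tsum_fintype, Finset.sum_const, Finset.card_univ, nsmul_eq_mul,
    ENNReal.ofReal_mul ENNReal.toReal_nonneg, ENNReal.ofReal_toReal hC.measure_ne_top,
    mul_comm _ (volume C), mul_assoc]
  refine mul_le_mul_right ?_ _
  rw [ENNReal.ofReal_div_of_pos (by positivity), div_eq_mul_inv, mul_right_comm, ← div_eq_mul_inv,
    ENNReal.div_le_iff (by simpa using hL0.ne') ENNReal.ofReal_ne_top]
  exact e2

lemma dens_nat {P : ℕ → Prop} (h0 : P 0) (h1 : P 1) (h2 : P 2) (h3 : P 3) (h4 : P 4) (h5 : P 5)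
    (h6 : P 6) (h7 : P 7) (h8 : P 8) (h9 : P 9) (h10 : P 10) (h11 : P 11) (h12 : P 12) (h13 : P 13)
    (h14 : P 14) (h : ∀ n, P (n + 15)) : ∀ n, P n
  | 0 => h0 | 1 => h1 | 2 => h2 | 3 => h3 | 4 => h4 | 5 => h5 | 6 => h6 | 7 => h7 | 8 => h8
  | 9 => h9 | 10 => h10 | 11 => h11 | 12 => h12 | 13 => h13 | 14 => h14 | n + 15 => h n

theorem numA {h : ℝ} (hh : 2.45 ≤ h) : Num 0.935 0.3 h 0.61 0.51 0.32 0.069 0.287 0.241 := by
  refine ⟨by norm_num, by norm_num, by norm_num, by norm_num, by norm_num, by norm_num, by norm_num,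
    by norm_num, by norm_num, by norm_num, by norm_num, by norm_num, fun m hm => ?_, ?_,
    by rw [ub]; linarith, by linarith, ?_, ?_, ?_, ?_⟩
  · interval_cases m <;> rw [ub] <;> push_cast <;> linarith
  · apply dens_nat <;> intros <;> rw [ub] <;> push_cast <;> first | omega | linarith
  all_goals
    apply dens_nat <;> intros <;> rw [ub] <;> push_cast <;> constructor <;> linarith

theorem numB {h : ℝ} (hh : 2.48 ≤ h) : Num 0.944 0.33 h 0.663 0.54 0.33 0.099 0.257 0.158 := by
  refine ⟨by norm_num, by norm_num, by norm_num, by norm_num, by norm_num, by norm_num, by norm_num,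
    by norm_num, by norm_num, by norm_num, by norm_num, by norm_num, fun m hm => ?_, ?_,
    by rw [ub]; linarith, by linarith, ?_, ?_, ?_, ?_⟩
  · interval_cases m <;> rw [ub] <;> push_cast <;> linarith
  · apply dens_nat <;> intros <;> rw [ub] <;> push_cast <;> first | omega | linarith
  all_goals
    apply dens_nat <;> intros <;> rw [ub] <;> push_cast <;> constructor <;> linarith

end Pool.Agent.Lib.MP_fb520c_co
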