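import Pool.Agent.Lib.MP_fb520c_co.Fat.Defs
import Pool.Agent.Lib.MP_fb520c_co.HarmB

/-! The vertices of a bounded polygon in angular order. -/

set_option autoImplicit false

open MeasureTheory Set Real Metric
open scoped ENNReal

noncomputable section

namespace Pool.Agent.Lib.MP_fb520c_co

lemma poly0_line (c : Plane) {d : Plane} (hd : d ≠ 0) : volume {z : Plane | dt d (z - c) = 0} = 0 := by
  have hv : pt (-d 1) (d 0) ≠ 0 := fun h => hd (plane_ext
    (by simpa using congrFun (congrArg WithLp.ofLp h) 1)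
    (by simpa using congrFun (congrArg WithLp.ofLp h) 0))
  rw [← volume_line hv (dt d c)]
  congr 1
  ext z
  simp only [mem_ofPred_eq, dt, fv, pt_zero, pt_one, PiLp.sub_apply]
  constructor <;> intro h <;> linarith

/-- the triangle with vertices `c`, `c + a`, `c + b` -/
lemma volume_tri (c a b : Plane) (h : 0 ≤ dt a b) :
    volume {z : Plane | ∃ x y : ℝ, 0 ≤ x ∧ 0 ≤ y ∧ x + y ≤ 1 ∧ z = c + (x • a + y • b)} ≤
      ENNReal.ofReal (dt a b / 2) := by
  rcases h.eq_or_lt with h | h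
  · obtain ⟨d, hd, ha, hb⟩ : ∃ d : Plane, d ≠ 0 ∧ dt d a = 0 ∧ dt d b = 0 := by
      by_cases ha : a = 0
      · by_cases hb : b = 0
        · refine ⟨pt 1 0, fun h => ?_, by rw [ha, dt_zero_right], by rw [hb, dt_zero_right]⟩
          simpa using congrFun (congrArg WithLp.ofLp h) 0
        · exact ⟨b, hb, by rw [ha, dt_zero_right], dt_self b⟩
      · exact ⟨a, ha, dt_self a, h.symm⟩
    refine le_trans (measure_mono ?_) ((poly0_line c hd).le.trans zero_le)
    rintro z ⟨x, y, -, -, -, rfl⟩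
    simp only [mem_ofPred_eq, add_sub_cancel_left, dt_add_right, dt_smul_right, ha, hb]
    ring
  have ha : a ≠ 0 := fun e => by rw [e, dt_zero_left] at h; exact lt_irrefl _ h
  have hb : b ≠ 0 := fun e => by rw [e, dt_zero_right] at h; exact lt_irrefl _ h
  have hab : b - a ≠ 0 := fun e => by
    rw [sub_eq_zero.1 e, dt_self] at h; exact lt_irrefl _ h
  have e : b 1 / dt a b * (a 0 / dt a b) - -b 0 / dt a b * (-a 1 / dt a b) = (dt a b)⁻¹ := by
    field_simp
    simp only [dt]; ring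
  have hm : MeasurableSet (regionBetween (fun _ : ℝ => (0 : ℝ)) (fun x => 1 - x) (Ioc 0 1)) :=
    measurableSet_regionBetween measurable_const (by fun_prop) measurableSet_Ioc
  have hv : volume (co a b ⁻¹' regionBetween (fun _ : ℝ => (0 : ℝ)) (fun x => 1 - x) (Ioc 0 1)) =
      ENNReal.ofReal (dt a b / 2) := by
    rw [co, volume_lin (by rw [e]; exact inv_ne_zero h.ne') hm, e, inv_inv,
      abs_of_pos h, volume_std, ← ENNReal.ofReal_mul h.le, mul_one_div]
  rw [← hv, ← measure_preimage_add volume (-c) (co a b ⁻¹' _)]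
  have hN : volume ({z : Plane | dt a (z - c) = 0} ∪ {z : Plane | dt b (z - c) = 0} ∪
      {z : Plane | dt (b - a) (z - (c + a)) = 0}) = 0 :=
    measure_union_null (measure_union_null (poly0_line c ha) (poly0_line c hb)) (poly0_line _ hab)
  rw [← add_zero (volume (_ ⁻¹' _)), ← hN]
  refine le_trans (measure_mono ?_) (measure_union_le _ _)
  rintro z ⟨x, y, hx, hy, hxy, rfl⟩
  rcases hy.eq_or_lt with hy | hy
  · refine Or.inr (Or.inl (Or.inl ?_))
    simp only [mem_ofPred_eq, add_sub_cancel_left, dt_add_right, dt_smul_right, dt_self, ← hy]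
    ring
  rcases hx.eq_or_lt with hx | hx
  · refine Or.inr (Or.inl (Or.inr ?_))
    simp only [mem_ofPred_eq, add_sub_cancel_left, dt_add_right, dt_smul_right, dt_self, ← hx]
    ring
  rcases hxy.eq_or_lt with hxy | hxy
  · refine Or.inr (Or.inr ?_)
    simp only [mem_ofPred_eq, dt, PiLp.add_apply, PiLp.sub_apply, PiLp.smul_apply, smul_eq_mul]
    rw [show y = 1 - x by linarith]
    ring
  left
  have e1 : (co a b (x • a + y • b)).1 = x := by
    simp only [co, lin, PiLp.add_apply, PiLp.smul_apply, smul_eq_mul]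
    field_simp
    simp only [dt]; ring
  have e2 : (co a b (x • a + y • b)).2 = y := by
    simp only [co, lin, PiLp.add_apply, PiLp.smul_apply, smul_eq_mul]
    field_simp
    simp only [dt]; ring
  simp only [mem_preimage, neg_add_cancel_left, regionBetween, mem_ofPred_eq, mem_Ioc, mem_Ioo, e1, e2]
  exact ⟨⟨hx, by linarith⟩, hy, by linarith⟩

lemma poly0_sine (v : Plane) (s t u : ℝ) :
    sin (u - s) * ip v t = sin (u - t) * ip v s + sin (t - s) * ip v u := by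
  simp only [ip, sin_sub]
  ring

lemma poly0_per (v : Plane) (t : ℝ) : ip v (t + 2 * π) = ip v t := by
  simp only [ip, cos_add_two_pi, sin_add_two_pi]

/-- `w` attains the maximum in the direction `t` -/
def poly0_Mx (T : Finset Plane) (w : Plane) : Set ℝ := {t | ∀ w' ∈ T, ip w' t ≤ ip w t}

lemma poly0_closed (T : Finset Plane) (w : Plane) : IsClosed (poly0_Mx T w) := by
  have : poly0_Mx T w = ⋂ w' ∈ T, {t | ip w' t ≤ ip w t} := by ext t; simp [poly0_Mx]
  rw [this]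
  exact isClosed_biInter fun w' _ => isClosed_le (by unfold ip; fun_prop) (by unfold ip; fun_prop)

lemma poly0_Mx_per {T : Finset Plane} {w : Plane} {t : ℝ} :
    t + 2 * π ∈ poly0_Mx T w ↔ t ∈ poly0_Mx T w := by
  simp only [poly0_Mx, mem_ofPred_eq, poly0_per]

lemma poly0_conv {T : Finset Plane} {w : Plane} {s t u : ℝ} (hs : s ∈ poly0_Mx T w)
    (hu : u ∈ poly0_Mx T w) (h1 : s ≤ t) (h2 : t ≤ u) (h3 : u - s < π) : t ∈ poly0_Mx T w := by
  rcases (h1.trans h2).eq_or_lt with h | h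
  · rwa [show t = s by linarith]
  intro w' hw'
  have k0 : 0 < sin (u - s) := sin_pos_of_pos_of_lt_pi (by linarith) h3
  have k1 : 0 ≤ sin (u - t) := sin_nonneg_of_nonneg_of_le_pi (by linarith) (by linarith)
  have k2 : 0 ≤ sin (t - s) := sin_nonneg_of_nonneg_of_le_pi (by linarith) (by linarith)
  refine le_of_mul_le_mul_left ?_ k0
  rw [poly0_sine, poly0_sine w]
  exact add_le_add (mul_le_mul_of_nonneg_left (hs w' hw') k1)
    (mul_le_mul_of_nonneg_left (hu w' hw') k2)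

lemma poly0_pos {T : Finset Plane} (hT : ∀ t, ∃ w ∈ T, 0 < ip w t) {w : Plane} {t : ℝ}
    (h : t ∈ poly0_Mx T w) : 0 < ip w t := by
  obtain ⟨w', hw', h'⟩ := hT t
  exact h'.trans_le (h w' hw')

/-- `e` is a right end of the set where `w` attains the maximum -/
def poly0_RE (T : Finset Plane) (w : Plane) (e : ℝ) : Prop :=
  e ∈ poly0_Mx T w ∧ ∀ y, e < y → ¬Ioc e y ⊆ poly0_Mx T w

lemma poly0_RE_per {T : Finset Plane} {w : Plane} {e : ℝ} (h : poly0_RE T w (e + 2 * π)) :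
    poly0_RE T w e := by
  refine ⟨poly0_Mx_per.1 h.1, fun y hy k => h.2 (y + 2 * π) (by linarith) fun t ht => ?_⟩
  rw [show t = t - 2 * π + 2 * π by ring, poly0_Mx_per]
  exact k ⟨by linarith [ht.1], by linarith [ht.2]⟩

lemma poly0_RE_lt {T : Finset Plane} (hT : ∀ t, ∃ w ∈ T, 0 < ip w t) {w : Plane} {e e' : ℝ}
    (h : poly0_RE T w e) (h' : poly0_RE T w e') (h1 : e < e') (h2 : e' < e + 2 * π) : False := by
  rcases lt_trichotomy (e' - e) π with k | k | k
  · exact h.2 e' h1 fun t ht => poly0_conv h.1 h'.1 ht.1.le ht.2 k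
  · have p1 := poly0_pos hT h.1
    have p2 := poly0_pos hT h'.1
    rw [show e' = e + π by linarith, ip_add_pi] at p2
    linarith
  · exact h'.2 _ h2 fun t ht => poly0_conv h'.1 (poly0_Mx_per.2 h.1) ht.1.le ht.2 (by linarith)

lemma poly0_end {T : Finset Plane} (hT : ∀ t, ∃ w ∈ T, 0 < ip w t) (w : Plane) :
    ∃ f : ℝ, 0 ≤ f ∧ f < 2 * π ∧ ∀ e, 0 ≤ e → e < 2 * π → poly0_RE T w e → e = f := by
  by_cases h : ∃ e, 0 ≤ e ∧ e < 2 * π ∧ poly0_RE T w e
  · obtain ⟨f, h0, h1, h2⟩ := h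
    refine ⟨f, h0, h1, fun e k0 k1 k2 => ?_⟩
    rcases lt_trichotomy e f with k | k | k
    · exact (poly0_RE_lt hT k2 h2 k (by linarith)).elim
    · exact k
    · exact (poly0_RE_lt hT h2 k2 k (by linarith)).elim
  · exact ⟨0, le_rfl, two_pi_pos, fun e k0 k1 k2 => (h ⟨e, k0, k1, k2⟩).elim⟩

lemma poly0_gap {T : Finset Plane} (hne : T.Nonempty) {s u : ℝ} (hsu : s < u)
    (h : ∀ w ∈ T, ∀ e, s < e → e < u → ¬poly0_RE T w e) : ∃ w ∈ T, Icc s u ⊆ poly0_Mx T w := by
  by_contra hn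
  push Not at hn
  have h1 : ∀ w, ∃ x, w ∈ T → s < x ∧ x ≤ u ∧ x ∉ poly0_Mx T w := fun w => by
    by_cases hw : w ∈ T
    · have : ¬Ioc s u ⊆ poly0_Mx T w := fun k => hn w hw (by
        rw [← closure_Ioc hsu.ne]
        exact (poly0_closed T w).closure_subset_iff.2 k)
      obtain ⟨x, hx, k⟩ := not_subset.1 this
      exact ⟨x, fun _ => ⟨hx.1, hx.2, k⟩⟩
    · exact ⟨0, fun k => (hw k).elim⟩
  choose x hx using h1
  obtain ⟨w0, hw0, hmin⟩ := T.exists_min_image x hne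
  obtain ⟨a0, b0, -⟩ := hx w0 hw0
  obtain ⟨w, hw, hmax⟩ := T.exists_max_image (fun v => ip v ((s + x w0) / 2)) hne
  have hsub : Icc ((s + x w0) / 2) u ⊆ poly0_Mx T w := by
    refine IsClosed.Icc_subset_of_forall_mem_nhdsWithin ((poly0_closed T w).inter isClosed_Icc)
      hmax fun e he => ?_
    rw [mem_nhdsGT_iff_exists_Ioc_subset]
    by_contra k
    push Not at k
    exact h w hw e (by linarith [he.2.1]) he.2.2 ⟨he.1, fun y hy => k y hy⟩
  obtain ⟨a, b, c⟩ := hx w hw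
  exact c (hsub ⟨by linarith [hmin w hw], b⟩)

/-- break points of the maximum of finitely many functions `ip w` -/
lemma exists_breaks (T : Finset Plane) (hT : ∀ t, ∃ w ∈ T, 0 < ip w t) :
    ∃ n ≤ T.card, ∃ θ : ℕ → ℝ, 0 ≤ θ 0 ∧ (∀ k < n, θ k < 2 * π) ∧ (∀ k < n, θ k ≤ θ (k + 1)) ∧
      θ n = θ 0 + 2 * π ∧ ∀ k < n, ∃ w ∈ T, ∀ t, θ k ≤ t → t ≤ θ (k + 1) →
        ∀ w' ∈ T, ip w' t ≤ ip w t := by
  classical
  have hne : T.Nonempty := by
    obtain ⟨w, hw, -⟩ := hT 0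
    exact ⟨w, hw⟩
  choose f f0 f1 f2 using poly0_end hT
  set E := T.image f with hE
  have hn : 0 < E.card := (hne.image f).card_pos
  let o := E.orderEmbOfFin (rfl : E.card = E.card)
  have ho : ∀ i, 0 ≤ o i ∧ o i < 2 * π := fun i => by
    obtain ⟨w, -, e⟩ := Finset.mem_image.1 (E.orderEmbOfFin_mem rfl i)
    change 0 ≤ E.orderEmbOfFin rfl i ∧ E.orderEmbOfFin rfl i < 2 * π
    rw [← e]
    exact ⟨f0 w, f1 w⟩
  have hs : ∀ w ∈ T, ∀ e, 0 ≤ e → e < 2 * π → poly0_RE T w e → ∃ i, o i = e := fun w hw e a b c => by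
    have : e ∈ (E : Set ℝ) := Finset.mem_coe.2 (Finset.mem_image.2 ⟨w, hw, (f2 w e a b c).symm⟩)
    rw [← E.range_orderEmbOfFin rfl] at this
    exact this
  let θ : ℕ → ℝ := fun k => if h : k < E.card then o ⟨k, h⟩ else o ⟨0, hn⟩ + 2 * π
  have t1 : ∀ k (h : k < E.card), θ k = o ⟨k, h⟩ := fun k h => dif_pos h
  have t2 : ∀ k, ¬k < E.card → θ k = o ⟨0, hn⟩ + 2 * π := fun k h => dif_neg h
  have hlt : ∀ k < E.card, θ k < θ (k + 1) := fun k hk => by
    rw [t1 k hk]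
    by_cases h : k + 1 < E.card
    · rw [t1 _ h]
      exact o.strictMono (Fin.mk_lt_mk.2 (Nat.lt_succ_self k))
    · rw [t2 _ h]
      linarith [(ho ⟨k, hk⟩).2, (ho ⟨0, hn⟩).1]
  refine ⟨E.card, Finset.card_image_le, θ, ?_, fun k hk => ?_, fun k hk => (hlt k hk).le, ?_,
    fun k hk => ?_⟩
  · rw [t1 0 hn]; exact (ho _).1
  · rw [t1 k hk]; exact (ho _).2
  · rw [t1 0 hn, t2 _ (lt_irrefl _)]
  obtain ⟨w, hw, h⟩ := poly0_gap hne (hlt k hk) fun w hw e a b c => by
    rw [t1 k hk] at a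
    by_cases he : e < 2 * π
    · obtain ⟨i, rfl⟩ := hs w hw e ((ho _).1.trans a.le) he c
      have a' : k < i.1 := o.strictMono.lt_iff_lt.1 a
      have h : k + 1 < E.card := by have := i.2; omega
      rw [t1 _ h] at b
      have b' : i.1 < k + 1 := o.strictMono.lt_iff_lt.1 b
      omega
    · push Not at he
      have h : ¬k + 1 < E.card := fun h => by
        rw [t1 _ h] at b
        linarith [(ho ⟨k + 1, h⟩).2]
      rw [t2 _ h] at b
      obtain ⟨i, hi⟩ := hs w hw (e - 2 * π) (by linarith) (by linarith [(ho ⟨0, hn⟩).2])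
        (poly0_RE_per (by rwa [sub_add_cancel]))
      have : o ⟨0, hn⟩ ≤ o i := o.monotone (Fin.mk_le_mk.2 (Nat.zero_le _) : (⟨0, hn⟩ : Fin _) ≤ ⟨i.1, i.2⟩)
      linarith
  exact ⟨w, hw, fun t a b => h ⟨a, b⟩⟩

lemma poly0_fv (w : Plane) (ρ t : ℝ) : fv w (pol ρ t) = ρ * ip w t := by
  simp only [fv, pol, ip, pt_zero, pt_one]; ring

lemma poly0_dt (a b s u : ℝ) : dt (pol a s) (pol b u) = a * b * sin (u - s) := by
  simp only [dt, pol, pt_zero, pt_one, sin_sub]; ring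

lemma poly0_polar (z : Plane) (a : ℝ) : ∃ ρ t, 0 ≤ ρ ∧ a ≤ t ∧ t < a + 2 * π ∧ z = pol ρ t := by
  by_cases h : z 0 ≠ 0 ∨ z 1 ≠ 0
  · obtain ⟨ρ, t, hρ, -, -, e0, e1⟩ := exists_angle (z 0) (z 1) h
    obtain ⟨k1, k2⟩ := toIcoMod_mem_Ico two_pi_pos a t
    refine ⟨ρ, _, hρ.le, k1, k2, plane_ext ?_ ?_⟩
    · rw [e0, toIcoMod, zsmul_eq_mul, pol, pt_zero, cos_sub_int_mul_two_pi]
    · rw [e1, toIcoMod, zsmul_eq_mul, pol, pt_one, sin_sub_int_mul_two_pi]
  · push Not at h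
    exact ⟨0, a, le_rfl, le_rfl, by linarith [two_pi_pos], plane_ext (by simp [pol, h.1])
      (by simp [pol, h.2])⟩

lemma poly0_find (θ : ℕ → ℝ) {t : ℝ} (h0 : θ 0 ≤ t) (n : ℕ) (hn : t < θ n) :
    ∃ k < n, θ k ≤ t ∧ t < θ (k + 1) := by
  induction n with
  | zero => exact absurd h0 (not_le.2 hn)
  | succ n ih =>
    rcases le_or_gt (θ n) t with h | h
    · exact ⟨n, Nat.lt_succ_self n, h, hn⟩
    · obtain ⟨k, hk, r⟩ := ih h
      exact ⟨k, by omega, r⟩

theorem poly0 {S : Finset (Plane × ℝ)} {c : Plane} (hc : c ∈ poly S)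
    (hb : Bornology.IsBounded (poly S)) :
    ∃ n ≤ S.card, ∃ θ σ : ℕ → ℝ, Cfg n θ σ ∧ (∀ k ≤ n, c + pol (σ k) (θ k) ∈ closure (poly S)) ∧
      volume (poly S) ≤ ENNReal.ofReal (W n θ σ / 2) := by
  classical
  let T : Finset Plane := S.image fun h => (h.2 - fv h.1 c)⁻¹ • h.1
  have hm : ∀ z, c + z ∈ poly S ↔ ∀ w ∈ T, fv w z < 1 := fun z => by
    simp only [T, Finset.forall_mem_image, poly, mem_ofPred_eq]
    refine forall₂_congr fun h hh => ?_
    have k : 0 < h.2 - fv h.1 c := sub_pos.2 (hc h hh)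
    have e : fv ((h.2 - fv h.1 c)⁻¹ • h.1) z = (h.2 - fv h.1 c)⁻¹ * fv h.1 z := by
      simp only [fv, PiLp.smul_apply, smul_eq_mul]; ring
    have e' : fv h.1 (c + z) = fv h.1 c + fv h.1 z := by
      simp only [fv, PiLp.add_apply]; ring
    rw [e, e', inv_mul_lt_one₀ k, lt_sub_iff_add_lt']
  have hT : ∀ t, ∃ w ∈ T, 0 < ip w t := fun t => by
    by_contra hn
    push Not at hn
    obtain ⟨R, hR⟩ := hb.subset_closedBall c
    have := hR ((hm (pol (|R| + 1) t)).2 fun w hw => by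
      rw [poly0_fv]
      nlinarith [hn w hw, abs_nonneg R])
    rw [mem_closedBall, dist_eq_norm, add_sub_cancel_left, norm_pol,
      abs_of_nonneg (by positivity)] at this
    linarith [le_abs_self R]
  have hne : T.Nonempty := by
    obtain ⟨w, hw, -⟩ := hT 0
    exact ⟨w, hw⟩
  obtain ⟨n, hn, θ, h0, h1, h2, h3, h4⟩ := exists_breaks T hT
  let G : ℝ → ℝ := fun t => T.sup' hne fun w => ip w t
  have G1 : ∀ t, ∀ w ∈ T, ip w t ≤ G t := fun t w hw => Finset.le_sup' (fun w => ip w t) hw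
  have G0 : ∀ t, 0 < G t := fun t => by
    obtain ⟨w, hw, h⟩ := hT t
    exact h.trans_le (G1 t w hw)
  have G2 : ∀ t, ∀ w ∈ T, (∀ w' ∈ T, ip w' t ≤ ip w t) → G t = ip w t := fun t w hw h =>
    le_antisymm (Finset.sup'_le _ _ h) (G1 t w hw)
  have hgap : ∀ k < n, θ (k + 1) < θ k + π := fun k hk => by
    by_contra hg
    push Not at hg
    obtain ⟨w, hw, h⟩ := h4 k hk
    have p1 := G0 (θ k)
    have p2 := G0 (θ k + π)
    rw [G2 _ w hw (h _ le_rfl (h2 k hk))] at p1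
    rw [G2 _ w hw (h _ (by linarith [pi_pos]) hg), ip_add_pi] at p2
    linarith
  refine ⟨n, hn.trans Finset.card_image_le, θ, fun k => (G (θ k))⁻¹,
    ⟨fun k _ => inv_pos.2 (G0 _), h0, h1, h2, hgap, h3, ?_⟩, fun k _ => ?_, ?_⟩
  · simp only [h3, G, poly0_per]
  · have hf : Continuous fun s : ℝ => c + pol (s * (G (θ k))⁻¹) (θ k) := by
      unfold pol pt; fun_prop
    have := (hf.tendsto 1).mono_left (nhdsWithin_le_nhds (s := Iio 1))
    simp only [one_mul] at this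
    refine mem_closure_of_tendsto this ?_
    filter_upwards [Ioo_mem_nhdsLT (zero_lt_one' ℝ)] with s hs
    refine (hm _).2 fun w hw => ?_
    rw [poly0_fv, mul_assoc]
    have : (G (θ k))⁻¹ * ip w (θ k) ≤ 1 := (inv_mul_le_one₀ (G0 _)).2 (G1 _ w hw)
    nlinarith [hs.1, hs.2]
  have hd : ∀ k < n, 0 ≤ dt (pol (G (θ k))⁻¹ (θ k)) (pol (G (θ (k + 1)))⁻¹ (θ (k + 1))) :=
    fun k hk => by
      rw [poly0_dt]
      exact mul_nonneg (mul_nonneg (inv_pos.2 (G0 _)).le (inv_pos.2 (G0 _)).le)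
        (sin_nonneg_of_nonneg_of_le_pi (by linarith [h2 k hk]) (by linarith [hgap k hk]))
  have hcov : poly S ⊆ ⋃ k ∈ Finset.range n, {z : Plane | ∃ x y : ℝ, 0 ≤ x ∧ 0 ≤ y ∧ x + y ≤ 1 ∧
      z = c + (x • pol (G (θ k))⁻¹ (θ k) + y • pol (G (θ (k + 1)))⁻¹ (θ (k + 1)))} := by
    intro y hy
    obtain ⟨ρ, t, hρ, a, b, e⟩ := poly0_polar (y - c) (θ 0)
    obtain ⟨k, hk, a', b'⟩ := poly0_find θ a n (by rw [h3]; exact b)
    obtain ⟨w, hw, h⟩ := h4 k hk
    have hy' : ρ * ip w t < 1 := by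
      rw [← poly0_fv, ← e]
      exact (hm _).1 (by rwa [add_sub_cancel]) w hw
    have g := hgap k hk
    have k0 : 0 < sin (θ (k + 1) - θ k) := sin_pos_of_pos_of_lt_pi (by linarith) (by linarith)
    have k1 : 0 ≤ sin (θ (k + 1) - t) := sin_nonneg_of_nonneg_of_le_pi (by linarith) (by linarith)
    have k2 : 0 ≤ sin (t - θ k) := sin_nonneg_of_nonneg_of_le_pi (by linarith) (by linarith)
    have p1 := G0 (θ k)
    have p2 := G0 (θ (k + 1))
    refine mem_iUnion₂.2 ⟨k, Finset.mem_range.2 hk,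
      ρ * sin (θ (k + 1) - t) * G (θ k) / sin (θ (k + 1) - θ k),
      ρ * sin (t - θ k) * G (θ (k + 1)) / sin (θ (k + 1) - θ k), by positivity, by positivity,
      ?_, ?_⟩
    · rw [← add_div, div_le_one k0, G2 _ w hw (h _ le_rfl (h2 k hk)),
        G2 _ w hw (h _ (h2 k hk) le_rfl)]
      have := poly0_sine w (θ k) t (θ (k + 1))
      nlinarith [mul_lt_mul_of_pos_left hy' k0]
    · rw [← sub_eq_iff_eq_add', e]
      refine plane_ext ?_ ?_ <;>
        simp only [pol, pt_zero, pt_one, PiLp.add_apply, PiLp.smul_apply, smul_eq_mul] <;>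
        field_simp <;> simp only [sin_sub] <;> ring
  refine (measure_mono hcov).trans ((measure_biUnion_finset_le _ _).trans ?_)
  refine (Finset.sum_le_sum fun k hk => volume_tri c _ _ (hd k (Finset.mem_range.1 hk))).trans ?_
  rw [← ENNReal.ofReal_sum_of_nonneg fun k hk => div_nonneg (hd k (Finset.mem_range.1 hk)) zero_le_two,
    W, Finset.sum_div]
  simp only [poly0_dt, le_refl]

end Pool.Agent.Lib.MP_fb520c_co
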