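import Pool.Agent.Lib.MP_fb520c_co.Fat.Defs

/-! Nearly round sets with distant centres do not cross. -/

set_option autoImplicit false

open MeasureTheory Set Real Metric
open scoped ENNReal

noncomputable section

namespace Pool.Agent.Lib.MP_fb520c_co

lemma ip_pos_between {w : Plane} {s t u : ℝ} (h1 : s ≤ t) (h2 : t ≤ u) (h3 : u - s ≤ π)
    (hs : 0 < ip w s) (hu : 0 < ip w u) : 0 < ip w t := by
  rcases h3.eq_or_lt with h | h
  · rw [show u = s + π by linarith, ip_add_pi] at hu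
    linarith
  rcases h1.eq_or_lt with rfl | h1'
  · exact hs
  have k : sin (u - s) * ip w t = sin (u - t) * ip w s + sin (t - s) * ip w u := by
    simp only [ip, sin_sub]
    ring
  have p1 : 0 < sin (u - s) := sin_pos_of_pos_of_lt_pi (by linarith) h
  have p2 : 0 ≤ sin (u - t) := sin_nonneg_of_nonneg_of_le_pi (by linarith) (by linarith)
  have p3 : 0 < sin (t - s) := sin_pos_of_pos_of_lt_pi (by linarith) (by linarith)
  exact (mul_pos_iff_of_pos_left p1).1 (k ▸ by positivity)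

lemma Alt_sub (z w : Plane) (t : ℝ) : ip (z - w) t = ip z t - ip w t := by
  simp only [ip, PiLp.sub_apply]
  ring

lemma Alt_per (z : Plane) (t : ℝ) : ip z (t + 2 * π) = ip z t := by
  simp only [ip, cos_add_two_pi, sin_add_two_pi]

lemma Alt_between {z w : Plane} {s t u : ℝ} (h1 : s ≤ t) (h2 : t ≤ u) (h3 : u - s ≤ π)
    (hs : ip w s < ip z s) (hu : ip w u < ip z u) : ip w t < ip z t := by
  have := ip_pos_between (w := z - w) h1 h2 h3 (by rwa [Alt_sub, sub_pos]) (by rwa [Alt_sub, sub_pos])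
  rwa [Alt_sub, sub_pos] at this

lemma Alt_cvx {b c x y : ℝ} (hb : 0 ≤ b) (hc : 0 ≤ c) (h : 0 < b + c) (hx : 0 < x) (hy : 0 < y) :
    0 < b * x + c * y := by
  rcases hb.eq_or_lt with rfl | hb'
  · rw [zero_add] at h
    positivity
  · positivity

lemma Alt_pos {α α' β β' A1 A2 B1 B2 : ℝ} (h0 : 0 ≤ α') (h1 : 0 ≤ β) (h2 : 0 ≤ β')
    (ha : α + α' = 1) (hb : β + β' = 1) (e : α * A1 + α' * A2 = β * B1 + β' * B2)
    (k1 : B1 < A1) (k2 : B2 < A1) : 0 < α' := by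
  refine h0.lt_of_ne fun h => ?_
  have := Alt_cvx h1 h2 (by linarith) (sub_pos.2 k1) (sub_pos.2 k2)
  obtain rfl : α = 1 := by linarith
  subst h
  have e2 : β * (A1 - B1) + β' * (A1 - B2) = 0 := by linear_combination e + A1 * hb
  linarith

lemma Alt_key {α α' β β' A1 A2 B1 B2 : ℝ} (h0 : 0 ≤ α) (h0' : 0 < α') (h1 : 0 ≤ β) (h2 : α ≤ β')
    (ha : α + α' = 1) (hb : β + β' = 1) (e : α * A1 + α' * A2 = β * B1 + β' * B2)
    (k1 : B1 < A2) (k2 : B2 < A2) : A1 < B2 := by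
  have := Alt_cvx h1 (sub_nonneg.2 h2) (by linarith) (sub_pos.2 k1) (sub_pos.2 k2)
  have e2 : β * (A2 - B1) + (β' - α) * (A2 - B2) = α * (B2 - A1) := by
    linear_combination e + A2 * hb - A2 * ha
  rw [e2] at this
  exact sub_pos.1 (pos_of_mul_pos_right this h0)

lemma Alt_aux {a1 a2 b1 b2 y : Plane} (ha : y ∈ segment ℝ a1 a2) (hb : y ∈ segment ℝ b1 b2)
    {t1 t2 t3 t4 : ℝ} (h1 : ip b1 t1 < ip a1 t1 ∧ ip b2 t1 < ip a1 t1)
    (h3 : ip b1 t3 < ip a2 t3 ∧ ip b2 t3 < ip a2 t3)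
    (h2 : ip a1 t2 < ip b1 t2 ∧ ip a2 t2 < ip b1 t2)
    (h4 : ip a1 t4 < ip b2 t4 ∧ ip a2 t4 < ip b2 t4)
    (o1 : t2 ≤ t4) (o2 : t4 ≤ t1) (o3 : t1 ≤ t3) (o5 : t3 ≤ t2 + 2 * π) : False := by
  obtain ⟨α, α', p1, p2, ha, rfl⟩ := ha
  obtain ⟨β, β', p3, p4, hb, e⟩ := hb
  have e' : ∀ t, α * ip a1 t + α' * ip a2 t = β * ip b1 t + β' * ip b2 t := fun t => by
    have e0 := congrArg (fun z : Plane => z 0) e
    have e1 := congrArg (fun z : Plane => z 1) e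
    simp only [PiLp.add_apply, PiLp.smul_apply, smul_eq_mul] at e0 e1
    simp only [ip]
    linear_combination -cos t * e0 - sin t * e1
  have q1 : 0 < α' := Alt_pos p2 p3 p4 ha hb (e' t1) h1.1 h1.2
  have q2 : 0 < α := Alt_pos p1 p3 p4 (add_comm α α' ▸ ha) hb ((add_comm _ _).trans (e' t3)) h3.1 h3.2
  have q3 : 0 < β' := Alt_pos p4 p1 p2 hb ha (e' t2).symm h2.1 h2.2
  have q4 : 0 < β := Alt_pos p3 p1 p2 (add_comm β β' ▸ hb) ha ((add_comm _ _).trans (e' t4).symm)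
    h4.1 h4.2
  rcases le_total α β' with c | c
  · rcases le_total (t3 - t4) π with d | d
    · exact lt_asymm h1.2 (Alt_between o2 o3 d h4.1 (Alt_key p1 q1 p3 c ha hb (e' t3) h3.1 h3.2))
    · have := Alt_between (t := t2 + 2 * π) (u := t4 + 2 * π) o5 (by linarith) (by linarith) h3.1
        (by
          rw [Alt_per, Alt_per]
          exact Alt_key p3 q3 p1 (by linarith) hb ha (e' t4).symm h4.1 h4.2)
      rw [Alt_per, Alt_per] at this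
      exact lt_asymm h2.2 this
  · rcases le_total (t1 - t2) π with d | d
    · exact lt_asymm h4.1 (Alt_between o1 o2 d (Alt_key (α' := β) (β := α') p4 q4 p2 c
        (by linarith) (by linarith) (by linarith [e' t2]) h2.2 h2.1) h1.2)
    · exact lt_asymm h3.1 (Alt_between (u := t2 + 2 * π) o3 o5 (by linarith)
        (Alt_key (α' := α) (β := β') (β' := β) p2 q2 p4 (by linarith) (by linarith) (by linarith)
          (by linarith [e' t1]) h1.2 h1.1) (by rw [Alt_per, Alt_per]; exact h2.2))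

/-- the outer normals at the vertices of a convex quadrilateral alternate -/
lemma alt {a1 a2 b1 b2 y : Plane} (ha : y ∈ segment ℝ a1 a2) (hb : y ∈ segment ℝ b1 b2)
    {t1 t2 t3 t4 : ℝ} (h1 : ip b1 t1 < ip a1 t1 ∧ ip b2 t1 < ip a1 t1)
    (h3 : ip b1 t3 < ip a2 t3 ∧ ip b2 t3 < ip a2 t3)
    (h2 : ip a1 t2 < ip b1 t2 ∧ ip a2 t2 < ip b1 t2)
    (h4 : ip a1 t4 < ip b2 t4 ∧ ip a2 t4 < ip b2 t4)
    (o1 : t2 ≤ t4) (o2 : t4 ≤ t1) (o3 : t4 ≤ t3) (o4 : t1 ≤ t2 + 2 * π) (o5 : t3 ≤ t2 + 2 * π) :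
    False := by
  rcases le_total t1 t3 with h | h
  · exact Alt_aux ha hb h1 h3 h2 h4 o1 o2 h o5
  · exact Alt_aux (segment_symm ℝ a1 a2 ▸ ha) hb h3 h1 h2.symm h4.symm o1 o3 h o4

/-- `k - D cos` changes sign once on `[0, π]` -/
lemma sign_once {k : ℝ → ℝ} {κ τ D φ s t : ℝ} (hκ : ∀ θ, |k θ| ≤ κ)
    (hτ : ∀ s t, |k s - k t| ≤ τ * |s - t|) (hD0 : 0 ≤ D) (hD : κ ^ 2 + τ ^ 2 < D ^ 2)
    (h1 : φ ≤ s) (h2 : s ≤ t) (h3 : t ≤ φ + π) (hs : 0 < k s - D * cos (s - φ)) :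
    0 < k t - D * cos (t - φ) := by
  rcases h2.eq_or_lt with rfl | h2'
  · exact hs
  have k1 := abs_le.1 (hκ s)
  have k2 := abs_le.1 (hκ t)
  by_cases hc : D * cos (t - φ) < -κ
  · linarith
  obtain ⟨c, ⟨c1, c2⟩, hc'⟩ := exists_hasDerivAt_eq_slope cos (fun x => -sin x)
    (show s - φ < t - φ by linarith) continuous_cos.continuousOn fun x _ => hasDerivAt_cos x
  rw [eq_div_iff (by linarith)] at hc'
  have m1 : cos c ≤ cos (s - φ) := cos_le_cos_of_nonneg_of_le_pi (by linarith) (by linarith) c1.le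
  have m2 : cos (t - φ) ≤ cos c := cos_le_cos_of_nonneg_of_le_pi (by linarith) (by linarith) c2.le
  have m3 : 0 ≤ sin c := sin_nonneg_of_nonneg_of_le_pi (by linarith) (by linarith)
  have m4 : (D * cos c) ^ 2 ≤ κ ^ 2 :=
    sq_le_sq' (by linarith [mul_le_mul_of_nonneg_left m2 hD0])
      (by linarith [mul_le_mul_of_nonneg_left m1 hD0])
  have m5 : τ ≤ D * sin c := by
    refine (abs_le_of_sq_le_sq' ?_ (mul_nonneg hD0 m3)).2
    have : (D * sin c) ^ 2 = D ^ 2 - (D * cos c) ^ 2 := by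
      linear_combination D ^ 2 * sin_sq_add_cos_sq c
    linarith
  have m6 := (abs_le.1 (hτ s t)).2
  rw [abs_of_neg (sub_neg.2 h2')] at m6
  have m7 := mul_le_mul_of_nonneg_right m5 (sub_pos.2 h2').le
  have m8 : D * sin c * (t - s) = D * cos (s - φ) - D * cos (t - φ) := by
    linear_combination -D * hc'
  linarith

lemma Alt_pol (z : Plane) : ∃ φ, z = pol ‖z‖ φ := by
  let w : ℂ := ⟨z 0, z 1⟩
  have h : ‖w‖ = ‖z‖ := by
    refine (sq_eq_sq₀ (norm_nonneg _) (norm_nonneg _)).1 ?_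
    rw [norm_sq_eq, Complex.sq_norm, Complex.normSq_mk]
    ring
  refine ⟨w.arg, plane_ext ?_ ?_⟩
  · rw [pol, pt_zero, ← h, Complex.norm_mul_cos_arg]
  · rw [pol, pt_one, ← h, Complex.norm_mul_sin_arg]

lemma Alt_dir {A B : Set Plane} {a b z : Plane} {p q : ℝ → ℝ} (hA : HasSupp A a p)
    (hB : HasSupp B b q) (hz : z ∈ A \ B) (c : ℝ) : ∃ t ∈ Ico c (c + 2 * π),
      q t + ip b t < p t + ip a t ∧ ∀ w ∈ B, ip w t < ip z t := by
  obtain ⟨s, hs⟩ := not_forall.1 (mt (hB.mem z).2 hz.2)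
  have hp : Function.Periodic (fun t => ip (z - b) t - q t) (2 * π) := fun t => by
    simp only [Alt_per, hB.per]
  obtain ⟨t, ht, e⟩ := hp.exists_mem_Ico two_pi_pos s c
  have h1 := (hA.mem z).1 hz.1 t
  simp only [Alt_sub, not_lt] at e h1 hs
  refine ⟨t, ht, by linarith, fun w hw => ?_⟩
  have h2 := (hB.mem w).1 hw t
  rw [Alt_sub] at h2
  linarith

lemma Alt_move {k : ℝ → ℝ} {κ τ D φ t t2 t4 : ℝ} (hκ : ∀ θ, |k θ| ≤ κ)
    (hτ : ∀ s t, |k s - k t| ≤ τ * |s - t|) (hD0 : 0 ≤ D) (hD : κ ^ 2 + τ ^ 2 < D ^ 2)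
    (m : t ∈ Ico (φ - π) (φ - π + 2 * π)) (m2 : t2 ∈ Ico (φ - π) (φ - π + 2 * π))
    (m4 : t4 ∈ Ico (φ - π) (φ - π + 2 * π)) (g : 0 < k t - D * cos (t - φ))
    (g2 : k t2 - D * cos (t2 - φ) < 0) (g4 : k t4 - D * cos (t4 - φ) < 0) :
    ∃ u, t4 ≤ u ∧ u ≤ t2 + 2 * π ∧ ∀ z, ip z u = ip z t := by
  obtain ⟨m, m'⟩ := m
  obtain ⟨m2, m2'⟩ := m2
  obtain ⟨m4, m4'⟩ := m4
  rcases le_total t4 t with h | h
  · exact ⟨t, h, by linarith, fun _ => rfl⟩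
  rcases le_total t t2 with h' | h'
  · exact ⟨t + 2 * π, by linarith, by linarith, fun z => Alt_per z t⟩
  rcases le_total φ t with h'' | h''
  · exact absurd (sign_once hκ hτ hD0 hD h'' h (by linarith) g) (not_lt.2 g4.le)
  · have c : ∀ x, cos (2 * φ - x - φ) = cos (x - φ) := fun x => by
      rw [← cos_neg]
      congr 1
      ring
    have := sign_once (k := fun x => k (2 * φ - x)) (φ := φ) (s := 2 * φ - t) (t := 2 * φ - t2)
      (fun θ => hκ _) (fun s t => by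
        refine (hτ _ _).trans_eq ?_
        rw [sub_sub_sub_cancel_left, abs_sub_comm]) hD0 hD (by linarith) (by linarith) (by linarith)
      (by rwa [c, sub_sub_cancel])
    rw [c, sub_sub_cancel] at this
    exact absurd this (not_lt.2 g2.le)

theorem nc {A B : Set Plane} {a b : Plane} {p q : ℝ → ℝ} (hA : HasSupp A a p) (hB : HasSupp B b q)
    {κ τ : ℝ} (hκ : ∀ θ, |p θ - q θ| ≤ κ)
    (hτ : ∀ s t, |(p s - q s) - (p t - q t)| ≤ τ * |s - t|)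
    (hD : κ ^ 2 + τ ^ 2 < dist a b ^ 2) : ¬Cross A B := by
  obtain ⟨φ, hφ⟩ := Alt_pol (b - a)
  rw [dist_comm, dist_eq_norm] at hD
  have g : ∀ t, ‖b - a‖ * cos (t - φ) = ip b t - ip a t := fun t => by
    rw [← ip_pol, ← hφ, Alt_sub]
  have key : ∀ a1 ∈ A \ B, ∀ a2 ∈ A \ B, ∀ b1 ∈ B \ A, ∀ b2 ∈ B \ A, ∀ y ∈ segment ℝ a1 a2,
      y ∈ segment ℝ b1 b2 → ∀ t2 ∈ Ico (φ - π) (φ - π + 2 * π), ∀ t4 ∈ Ico (φ - π) (φ - π + 2 * π),
      (p t2 + ip a t2 < q t2 + ip b t2 ∧ ∀ w ∈ A, ip w t2 < ip b1 t2) →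
      (p t4 + ip a t4 < q t4 + ip b t4 ∧ ∀ w ∈ A, ip w t4 < ip b2 t4) → t2 ≤ t4 → False := by
    intro a1 h1 a2 h2 b1 h3 b2 h4 y h5 h6 t2 m2 t4 m4 ⟨g2, k2⟩ ⟨g4, k4⟩ o
    have mv : ∀ z ∈ A \ B, ∃ u, t4 ≤ u ∧ u ≤ t2 + 2 * π ∧ ∀ w ∈ B, ip w u < ip z u := by
      intro z hz
      obtain ⟨t, m, g1, k1⟩ := Alt_dir hA hB hz (φ - π)
      obtain ⟨u, u1, u2, u3⟩ := Alt_move (k := fun t => p t - q t) hκ hτ (norm_nonneg _) hD m m2 m4
        (by rw [g]; linarith) (by rw [g]; linarith) (by rw [g]; linarith)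
      exact ⟨u, u1, u2, fun w hw => by rw [u3, u3]; exact k1 w hw⟩
    obtain ⟨t1, u1, u2, u3⟩ := mv a1 h1
    obtain ⟨t3, v1, v2, v3⟩ := mv a2 h2
    exact alt h5 h6 ⟨u3 _ h3.1, u3 _ h4.1⟩ ⟨v3 _ h3.1, v3 _ h4.1⟩ ⟨k2 _ h1.1, k2 _ h2.1⟩
      ⟨k4 _ h1.1, k4 _ h2.1⟩ o u1 v1 u2 v2
  rintro ⟨a1, h1, a2, h2, b1, h3, b2, h4, y, h5, h6⟩
  obtain ⟨t2, m2, k2⟩ := Alt_dir hB hA h3 (φ - π)
  obtain ⟨t4, m4, k4⟩ := Alt_dir hB hA h4 (φ - π)
  rcases le_total t2 t4 with o | o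
  · exact key a1 h1 a2 h2 b1 h3 b2 h4 y h5 h6 t2 m2 t4 m4 k2 k4 o
  · exact key a1 h1 a2 h2 b2 h4 b1 h3 y h5 (segment_symm ℝ b1 b2 ▸ h6) t4 m4 t2 m2 k4 k2 o

lemma Alt_ball {a b z1 z2 y : Plane} {ρ σ : ℝ} (hσ : 0 ≤ σ) (h1 : z1 ∈ ball a ρ \ ball b σ)
    (h2 : z2 ∈ ball a ρ \ ball b σ) (hy : y ∈ segment ℝ z1 z2) :
    ‖y - a‖ ^ 2 - ρ ^ 2 < ‖y - b‖ ^ 2 - σ ^ 2 := by
  have k : ∀ z ∈ ball a ρ \ ball b σ, 0 < ‖z - b‖ ^ 2 - σ ^ 2 - (‖z - a‖ ^ 2 - ρ ^ 2) := by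
    intro z ⟨k1, k2⟩
    rw [mem_ball_iff_norm] at k1 k2
    have := pow_lt_pow_left₀ k1 (norm_nonneg _) two_ne_zero
    have := pow_le_pow_left₀ hσ (not_lt.1 k2) 2
    linarith
  obtain ⟨α, β, p1, p2, e, rfl⟩ := hy
  have := Alt_cvx p1 p2 (by linarith) (k z1 h1) (k z2 h2)
  obtain rfl : β = 1 - α := by linarith
  simp only [norm_sq_eq, PiLp.sub_apply, PiLp.add_apply, PiLp.smul_apply, smul_eq_mul] at this ⊢
  linarith

theorem nc_ball (a b : Plane) {ρ σ : ℝ} (hρ : 0 ≤ ρ) (hσ : 0 ≤ σ) :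
    ¬Cross (ball a ρ) (ball b σ) := by
  rintro ⟨a1, h1, a2, h2, b1, h3, b2, h4, y, h5, h6⟩
  exact lt_asymm (Alt_ball hσ h1 h2 h5) (Alt_ball hρ h3 h4 h6)

end Pool.Agent.Lib.MP_fb520c_co
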