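import Pool.Agent.Lib.MP_fb520c_co.Fat.Cut

/-! Polygonal cells of a covering of a square by non-crossing bodies. -/

set_option autoImplicit false

open MeasureTheory Set Real Metric
open scoped ENNReal

noncomputable section

namespace Pool.Agent.Lib.MP_fb520c_co

theorem cells {κ : Type} [Fintype κ] (K : κ → Set Plane)
    (hK : ∀ k, IsCompact (K k) ∧ Convex ℝ (K k))
    (hX : ∀ k l, k ≠ l → ¬Cross (interior (K k)) (interior (K l))) (o : Plane) {L : ℝ}
    (hL : 0 < L) (hcov : ∀ z ∈ sq o L, ∃ k, z ∈ K k) :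
    ∃ S : κ → Finset (Plane × ℝ), (∀ k, poly (S k) ⊆ K k) ∧
      ∑ k, (S k).card ≤ 6 * (Fintype.card κ + 2) ∧
      ENNReal.ofReal (4 * L ^ 2) ≤ ∑ k, volume (poly (S k)) := by
  classical
  obtain ⟨V, N0, hN0, hV, hVd, hVc⟩ := cut (fun k => interior (K k) ∩ sq o L)
    (fun k => ⟨isOpen_interior.inter (isOpen_sq _ _), (hK k).2.interior.inter (convex_sq _ _),
      (hK k).1.isBounded.subset (inter_subset_left.trans interior_subset)⟩)
    (fun k l hkl h => hX k l hkl (h.mono
      (fun z hz => ⟨hz.1.1, fun h' => hz.2 ⟨h', hz.1.2⟩⟩)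
      (fun z hz => ⟨hz.1.1, fun h' => hz.2 ⟨h', hz.1.2⟩⟩)))
  let N : Set Plane := N0 ∪ ⋃ k, frontier (K k)
  have hN : volume N = 0 :=
    measure_union_null hN0 (measure_iUnion_null fun k => (hK k).2.addHaar_frontier volume)
  have hcov' : ∀ z ∈ sq o L, z ∉ N → ∃ l, z ∈ V l := by
    intro z hz hzN
    obtain ⟨k, hk⟩ := hcov z hz
    refine hVc k z ⟨?_, hz⟩ fun h => hzN (Or.inl h)
    by_contra hi
    exact hzN (Or.inr (mem_iUnion.2 ⟨k, subset_closure hk, hi⟩))
  obtain ⟨S, h1, h2, -, h4⟩ := exists_polygons (ι := {k : κ // (V k).Nonempty}) o hL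
    (fun i => V i.1) ⟨fun i => ⟨(hV i.1).1, (hV i.1).2.1, (hV i.1).2.2.trans inter_subset_right⟩,
      fun i j hij => hVd _ _ fun e => hij (Subtype.ext e)⟩ fun i => i.2
  have hball : ∀ i, poly (S i) ⊆ K i.1 := by
    intro i
    have : poly (S i) \ K i.1 = ∅ := by
      refine ((isOpen_poly _).sdiff (hK i.1).1.isClosed).eq_empty_of_measure_zero (μ := volume)
        (measure_mono_null (fun z hz => ?_) hN)
      by_contra hzN
      obtain ⟨c, hzc⟩ := hcov' z ((h2.1 i).2.2 hz.1) hzN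
      by_cases e : (⟨c, z, hzc⟩ : {k : κ // (V k).Nonempty}) = i
      · subst e; exact hz.2 (interior_subset ((hV c).2.2 hzc).1)
      · exact Set.disjoint_left.1 (h2.2 _ _ e) (h1 _ hzc) hz.1
    exact sdiff_eq_empty.1 this
  let S' : κ → Finset (Plane × ℝ) := fun k =>
    if h : (V k).Nonempty then S ⟨k, h⟩ else {((0 : Plane), (0 : ℝ))}
  have hS1 : ∀ i : {k : κ // (V k).Nonempty}, S' i.1 = S i := fun i => dif_pos i.2
  have hS2 : ∀ i : {k : κ // ¬(V k).Nonempty}, S' i.1 = {((0 : Plane), (0 : ℝ))} :=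
    fun i => dif_neg i.2
  refine ⟨S', fun k => ?_, ?_, ?_⟩
  · by_cases h : (V k).Nonempty
    · rw [hS1 ⟨k, h⟩]; exact hball ⟨k, h⟩
    · rw [hS2 ⟨k, h⟩]
      intro z hz
      have := hz _ (Finset.mem_singleton_self _)
      simp [fv] at this
  · have e1 := Fintype.sum_subtype_add_sum_subtype (fun k => (V k).Nonempty) fun k => (S' k).card
    have e2 := Fintype.sum_subtype_add_sum_subtype (fun k => (V k).Nonempty) fun _ : κ => (1 : ℕ)
    simp only [hS1, hS2, Finset.card_singleton, Finset.sum_const, Finset.card_univ, smul_eq_mul,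
      mul_one] at e1 e2
    omega
  · have hsub : sq o L ⊆ N ∪ ⋃ k, poly (S' k) := by
      intro z hz
      by_cases hzN : z ∈ N
      · exact Or.inl hzN
      · obtain ⟨c, hzc⟩ := hcov' z hz hzN
        refine Or.inr (mem_iUnion.2 ⟨c, ?_⟩)
        rw [hS1 ⟨c, z, hzc⟩]
        exact h1 _ hzc
    have := (measure_mono hsub).trans ((measure_union_le (μ := volume) _ _).trans
      (add_le_add hN.le (measure_iUnion_fintype_le _ _)))
    rwa [zero_add, volume_sq o hL.le] at this

end Pool.Agent.Lib.MP_fb520c_co
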