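import Pool.Agent.Lib.MP_fb520c_co.Fat.Defs

/-! The Monge inequality and the cyclic rearrangement inequality. -/

set_option autoImplicit false

open MeasureTheory Set Real Metric
open scoped ENNReal

noncomputable section

namespace Pool.Agent.Lib.MP_fb520c_co

lemma monge {w12 w13 w14 w23 w24 w34 : ℝ} (h12 : 0 ≤ w12) (h13 : 0 ≤ w13) (h24 : 0 ≤ w24)
    (h34 : 0 ≤ w34) (hp : w13 * w24 = w12 * w34 + w14 * w23) (t1 : |w14 - w13| ≤ w34)
    (t2 : |w24 - w23| ≤ w34) (t3 : |w14 - w24| ≤ w12) (t4 : |w13 - w23| ≤ w12) :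
    w14 + w23 ≤ w13 + w24 := by
  rw [abs_le] at t1 t2 t3 t4
  refine abs_le_of_sq_le_sq' ?_ (add_nonneg h13 h24) |>.2
  have a1 : 0 ≤ 2 * w34 - (w14 - w13 + (w24 - w23)) := by linarith
  have a2 : 0 ≤ 2 * w34 + (w14 - w13 + (w24 - w23)) := by linarith
  have a3 : 0 ≤ 2 * w12 - (w14 - w24 + (w13 - w23)) := by linarith
  have a4 : 0 ≤ 2 * w12 + (w14 - w24 + (w13 - w23)) := by linarith
  nlinarith [mul_nonneg a1 a4, mul_nonneg a2 a3]

lemma Sym0.bd_tri {C : Set Plane} (hC : Sym0 C) {x y z : Plane} (hx : x ∈ C) (hy : y ∈ C)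
    (hz : Bd C z) : |dt x y| ≤ |dt x z| + |dt z y| := by
  obtain ⟨-, v, h1, h2⟩ := hz
  have hb : ∀ w ∈ C, |fv v w| ≤ 1 := fun w hw => by
    have := h2 _ (hC.sym w hw)
    have e : fv v (-w) = -fv v w := by simp [fv]; ring
    exact abs_le.2 ⟨by linarith, h2 w hw⟩
  have e : dt x y = dt x z * fv v y + dt z y * fv v x := by
    rw [← mul_one (dt x y), ← h1]
    simp only [dt, fv]
    ring
  rw [e]
  refine (abs_add_le _ _).trans (add_le_add ?_ ?_) <;> rw [abs_mul]
  · exact mul_le_of_le_one_right (abs_nonneg _) (hb y hy)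
  · exact mul_le_of_le_one_right (abs_nonneg _) (hb x hx)

lemma Sym0.bd_neg {C : Set Plane} (hC : Sym0 C) {z : Plane} (hz : Bd C z) : Bd C (-z) := by
  obtain ⟨h0, v, h1, h2⟩ := hz
  refine ⟨hC.sym z h0, -v, by simpa [fv] using h1, fun w hw => ?_⟩
  simpa [fv] using h2 _ (hC.sym w hw)

lemma Sym0.monge {C : Set Plane} (hC : Sym0 C) {a b c d : Plane} (ha : Bd C a) (hb : Bd C b)
    (hc : Bd C c) (hd : Bd C d) (h12 : 0 ≤ dt a b) (h13 : 0 ≤ dt a c) (h14 : 0 ≤ dt a d)
    (h23 : 0 ≤ dt b c) (h24 : 0 ≤ dt b d) (h34 : 0 ≤ dt c d) :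
    dt a d + dt b c ≤ dt a c + dt b d := by
  have sw : ∀ x y, |dt y x| = |dt x y| := fun x y => by
    rw [← abs_neg]
    congr 1
    simp only [dt]
    ring
  have k1 := hC.bd_tri ha.1 hd.1 hc
  have k2 := hC.bd_tri ha.1 hc.1 hd
  have k3 := hC.bd_tri hb.1 hd.1 hc
  have k4 := hC.bd_tri hb.1 hc.1 hd
  have k5 := hC.bd_tri ha.1 hd.1 hb
  have k6 := hC.bd_tri hb.1 hd.1 ha
  have k7 := hC.bd_tri ha.1 hc.1 hb
  have k8 := hC.bd_tri hb.1 hc.1 ha
  rw [sw c d] at k2 k4
  rw [sw a b] at k6 k8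
  simp only [abs_of_nonneg, h12, h13, h14, h23, h24, h34] at k1 k2 k3 k4 k5 k6 k7 k8
  refine MP_fb520c_co.monge h12 h13 h24 h34 (by simp only [dt]; ring) ?_ ?_ ?_ ?_ <;>
    exact abs_le.2 ⟨by linarith, by linarith⟩

theorem core {N K : ℕ} (hK0 : 0 < K) (hK : K ≤ N) (w : ℕ → ℕ → ℝ)
    (per : ∀ x y, w (x + N) (y + N) = w x y)
    (mon : ∀ a b c d, a ≤ b → b ≤ c → c ≤ d → d ≤ a + N → w a d + w b c ≤ w a c + w b d)
    (σ : Equiv.Perm (Fin N)) (hσ : (Finset.univ.filter fun x => σ x ≤ x).card = K) :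
    ∑ x : Fin N, w x (if x < σ x then (σ x : ℕ) else σ x + N) ≤ ∑ x : Fin N, w x (x + K) := by
  obtain ⟨J, rfl⟩ := Nat.exists_eq_add_of_le hK
  let δ : ℕ → ℝ := fun e => w (e + 1 + J) (e + (K + J) + 1) - w (e + 1 + J) (e + (K + J))
  let V : ℕ → ℝ := fun e => ∑ i ∈ Finset.range e, δ i
  have Vs : ∀ e, V (e + 1) = V e + δ e := fun e => Finset.sum_range_succ _ _
  have p1 : ∀ s e, w (s + (K + J)) (e + (K + J) + 1) = w s (e + 1) := fun s e => by
    rw [← per s (e + 1), add_right_comm e]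
  have δp : ∀ e, δ (e + (K + J)) = δ e := fun e => by
    simp only [δ]
    rw [show e + (K + J) + 1 + J = e + 1 + J + (K + J) by ring, p1, per]
  have Vp : ∀ e, V (e + (K + J)) = V e + V (K + J) := fun e => by
    induction e with
    | zero => simp [V]
    | succ e ih => rw [add_right_comm, Vs, Vs, ih, δp]; ring
  have up : ∀ s e, s ≤ e → e + 1 ≤ s + K → w s e - V e ≤ w s (e + 1) - V (e + 1) :=
    fun s e h1 h2 => by
      have := mon (e + 1 + J) (s + (K + J)) (e + (K + J)) (e + (K + J) + 1) (by omega) (by omega)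
        (by omega) (by omega)
      rw [p1, per] at this
      rw [Vs]
      simp only [δ]
      linarith
  have dn : ∀ s e, s + K ≤ e → e + 1 ≤ s + (K + J) → w s (e + 1) - V (e + 1) ≤ w s e - V e :=
    fun s e h1 h2 => by
      have := mon (s + (K + J)) (e + 1 + J) (e + (K + J)) (e + (K + J) + 1) (by omega) (by omega)
        (by omega) (by omega)
      rw [p1, per] at this
      rw [Vs]
      simp only [δ]
      linarith
  have key : ∀ s e, s ≤ e → e ≤ s + (K + J) → w s e - V e ≤ w s (s + K) - V (s + K) :=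
    fun s e h1 h2 => by
      rcases le_total e (s + K) with h | h
      · clear h2
        induction h using Nat.decreasingInduction with
        | self => exact le_rfl
        | of_succ k hk ih => exact (up s k h1 hk).trans (ih (by omega))
      · clear h1
        induction e, h using Nat.le_induction with
        | base => exact le_rfl
        | succ k hk ih => exact (dn s k hk h2).trans (ih (by omega))
  have s1 : ∀ k : ℕ, ∑ x ∈ Finset.range (K + J), V (x + k) =
      ∑ x ∈ Finset.range (K + J), V x + k * V (K + J) := fun k => by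
    induction k with
    | zero => simp
    | succ k ih =>
      have e1 := Finset.sum_range_succ (fun x => V (x + k)) (K + J)
      have e2 := Finset.sum_range_succ' (fun x => V (x + k)) (K + J)
      have e3 := Vp k
      rw [add_comm (K + J) k] at e1
      rw [zero_add, Finset.sum_congr rfl fun x _ =>
        congrArg V (show x + 1 + k = x + (k + 1) by ring)] at e2
      push_cast
      linarith
  have s2 : ∑ x : Fin (K + J), V (if x < σ x then (σ x : ℕ) else σ x + (K + J)) =
      ∑ x : Fin (K + J), V (x + K) := by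
    have e : ∀ x : Fin (K + J), V (if x < σ x then (σ x : ℕ) else σ x + (K + J)) =
        V (σ x) + if σ x ≤ x then V (K + J) else 0 := fun x => by
      by_cases h : x < σ x
      · rw [if_pos h, if_neg h.not_ge, add_zero]
      · rw [if_neg h, if_pos (not_lt.1 h), Vp]
    rw [Finset.sum_congr rfl fun x _ => e x, Finset.sum_add_distrib, ← Finset.sum_filter,
      Finset.sum_const, hσ, nsmul_eq_mul, Equiv.sum_comp σ fun x => V x,
      Fin.sum_univ_eq_sum_range V, Fin.sum_univ_eq_sum_range fun x => V (x + K), s1]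
  have s3 := Finset.sum_le_sum fun (x : Fin (K + J)) (_ : x ∈ Finset.univ) =>
    key x (if x < σ x then (σ x : ℕ) else σ x + (K + J))
      (by have := x.2; split_ifs with h; exacts [le_of_lt h, by omega])
      (by have := (σ x).2; split_ifs with h
          exacts [by omega, Nat.add_le_add_right (not_lt.1 h : σ x ≤ x) _])
  rw [Finset.sum_sub_distrib, Finset.sum_sub_distrib, s2] at s3
  linarith

end Pool.Agent.Lib.MP_fb520c_co
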