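import Pool.Agent.Lib.MP_fb520c_co.Fat.Sep

/-! Cutting a family of pairwise non-crossing sets into disjoint convex pieces. -/

set_option autoImplicit false

open MeasureTheory Set Real Metric
open scoped ENNReal

noncomputable section

namespace Pool.Agent.Lib.MP_fb520c_co

lemma cut_neg (v z : Plane) : fv (-v) z = -fv v z := by simp [fv]; ring

lemma cut_ivt {f : Plane → ℝ} (hf : Continuous f) {p q : Plane} (h : f p * f q ≤ 0) :
    ∃ z ∈ segment ℝ p q, f z = 0 := by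
  have k := (convex_segment (𝕜 := ℝ) p q).isPreconnected
  rcases mul_nonpos_iff.1 h with h | h
  · exact k.intermediate_value (right_mem_segment ℝ p q) (left_mem_segment ℝ p q)
      hf.continuousOn ⟨h.2, h.1⟩
  · exact k.intermediate_value (left_mem_segment ℝ p q) (right_mem_segment ℝ p q)
      hf.continuousOn ⟨h.1, h.2⟩

lemma cut_line {e w : Plane} (he : e ≠ 0) (h : dt e w = 0) : ∃ t : ℝ, w = t • e := by
  simp only [dt] at h
  by_cases h0 : e 0 = 0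
  · have h1 : e 1 ≠ 0 := fun h1 => he (by ext i; fin_cases i <;> simp [h0, h1])
    refine ⟨w 1 / e 1, ?_⟩
    ext i
    fin_cases i
    · simpa [h0, h1] using h
    · simp [h1]
  · refine ⟨w 0 / e 0, ?_⟩
    ext i
    fin_cases i
    · simp [h0]
    · simp only [Fin.mk_one, PiLp.smul_apply, smul_eq_mul]
      field_simp
      linear_combination h

lemma cut_ge (v : Plane) (c : ℝ) : Convex ℝ {z | c ≤ fv v z} := by
  refine convex_halfSpace_ge ⟨fun x y => ?_, fun a x => ?_⟩ c <;> simp [fv] <;> ring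

lemma cut_aux {X D : Set Plane} (hX : Convex ℝ X) (hD : Convex ℝ D) (h : ¬Cross X D) {v : Plane}
    {c : ℝ} {x1 x2 d1 d2 y : Plane} (h1 : x1 ∈ (X ∩ {z | fv v z < c}) \ D)
    (h2 : x2 ∈ (X ∩ {z | fv v z < c}) \ D) (k1 : d1 ∈ D \ (X ∩ {z | fv v z < c}))
    (k2 : d2 ∈ D \ (X ∩ {z | fv v z < c})) (hy : y ∈ segment ℝ x1 x2) (hy' : y ∈ segment ℝ d1 d2)
    (k : d1 ∈ X) : ∀ z ∈ D, c < fv v z → z ∈ X := by
  intro d hd hc
  by_contra hdX
  have lt : ∀ z ∈ segment ℝ x1 x2, ¬c ≤ fv v z := fun z hz =>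
    not_le.2 ((convex_half v c).segment_subset h1.1.2 h2.1.2 hz)
  have yD := hD.segment_subset k1.1 k2.1 hy'
  have c1 : c ≤ fv v d1 := not_lt.1 fun l => k1.2 ⟨k, l⟩
  have n2 : d2 ∉ X := fun l =>
    lt y hy ((cut_ge v c).segment_subset c1 (not_lt.1 fun l' => k2.2 ⟨l, l'⟩ : c ≤ fv v d2) hy')
  have ne : x2 - x1 ≠ 0 := fun e => by
    rw [sub_eq_zero.1 e, segment_same, mem_singleton_iff] at hy
    exact h1.2 (hy ▸ yD)
  have on : ∀ z ∈ D, dt (x2 - x1) (z - x1) = 0 → z ∈ segment ℝ x1 x2 := fun z hz e => by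
    obtain ⟨t, ht⟩ := cut_line ne e
    have := line_cases hy t
    rw [← ht, add_sub_cancel] at this
    exact (this.resolve_right fun l => l.elim (fun l => h1.2 (hD.segment_subset yD hz l))
      fun l => h2.2 (hD.segment_subset yD hz l))
  have ct : Continuous fun z : Plane => dt (x2 - x1) (z - x1) := by
    unfold dt
    fun_prop
  have p2 : dt (x2 - x1) (d2 - x1) ≠ 0 := fun e =>
    n2 (hX.segment_subset h1.1.1 h2.1.1 (on d2 k2.1 e))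
  have p0 : dt (x2 - x1) (y - x1) = 0 := by
    obtain ⟨a, b, -, -, e, rfl⟩ := hy
    obtain rfl : a = 1 - b := eq_sub_of_add_eq e
    simp [dt]
    ring
  have p1 : dt (x2 - x1) (d1 - x1) * dt (x2 - x1) (d2 - x1) ≤ 0 := by
    obtain ⟨a, b, ha, hb, e, rfl⟩ := hy'
    have e' : a * dt (x2 - x1) (d1 - x1) + b * dt (x2 - x1) (d2 - x1) = 0 := by
      rw [← p0]
      obtain rfl : a = 1 - b := eq_sub_of_add_eq e
      simp [dt]
      ring
    refine not_lt.1 fun l => ?_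
    have q := mul_self_pos.2 p2
    rcases ha.eq_or_lt with rfl | ha
    · rw [zero_add] at e
      exact p2 (by simpa [e] using e')
    · have := mul_pos ha l
      have := mul_nonneg hb q.le
      have := congrArg (· * dt (x2 - x1) (d2 - x1)) e'
      nlinarith
  by_cases p3 : dt (x2 - x1) (d2 - x1) * dt (x2 - x1) (d - x1) ≤ 0
  · obtain ⟨z, hz, e⟩ := cut_ivt ct p3
    exact h ⟨x1, ⟨h1.1.1, h1.2⟩, x2, ⟨h2.1.1, h2.2⟩, d2, ⟨k2.1, n2⟩, d, ⟨hd, hdX⟩, z,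
      on z (hD.segment_subset k2.1 hd hz) e, hz⟩
  · obtain ⟨z, hz, e⟩ := cut_ivt ct (p := d1) (q := d) (by
      have := mul_nonpos_of_nonpos_of_nonneg p1 (not_le.1 p3).le
      exact nonpos_of_mul_nonpos_left (b := dt (x2 - x1) (d2 - x1) * dt (x2 - x1) (d2 - x1))
        (by linarith) (mul_self_pos.2 p2))
    exact lt z (on z (hD.segment_subset k1.1 hd hz) e) ((cut_ge v c).segment_subset c1 hc.le hz)

/-- if the part of `X` below a line crosses `D` but `X` does not, then the part of `D` above the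
line lies in `X` -/
lemma cut_pasch {X D : Set Plane} (hX : Convex ℝ X) (hD : Convex ℝ D) (h : ¬Cross X D) {v : Plane}
    {c : ℝ} (h' : Cross (X ∩ {z | fv v z < c}) D) : ∀ z ∈ D, c < fv v z → z ∈ X := by
  obtain ⟨x1, h1, x2, h2, d1, k1, d2, k2, y, hy, hy'⟩ := h'
  by_cases k : d1 ∈ X
  · exact cut_aux hX hD h h1 h2 k1 k2 hy hy' k
  by_cases k' : d2 ∈ X
  · exact cut_aux hX hD h h1 h2 k2 k1 hy (segment_symm ℝ d1 d2 ▸ hy') k'
  exact absurd ⟨x1, ⟨h1.1.1, h1.2⟩, x2, ⟨h2.1.1, h2.2⟩, d1, ⟨k1.1, k⟩, d2, ⟨k2.1, k'⟩, y, hy, hy'⟩ h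

lemma cut_same {A B : Set Plane} (h : ¬Cross A B) (H : Set Plane) : ¬Cross (A ∩ H) (B ∩ H) :=
  fun l => h (l.mono (fun _ a => ⟨a.1.1, fun b => a.2 ⟨b, a.1.2⟩⟩)
    fun _ a => ⟨a.1.1, fun b => a.2 ⟨b, a.1.2⟩⟩)

lemma cut_opp (A B : Set Plane) (v : Plane) (c : ℝ) :
    ¬Cross (A ∩ {z | fv v z < c}) (B ∩ {z | fv (-v) z < -c}) := by
  rintro ⟨x1, h1, x2, h2, d1, k1, d2, k2, y, hy, hy'⟩
  have a : fv v y < c := (convex_half v c).segment_subset h1.1.2 h2.1.2 hy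
  have b : fv (-v) y < -c := (convex_half (-v) (-c)).segment_subset k1.1.2 k2.1.2 hy'
  rw [cut_neg] at b
  linarith

lemma cut_step {κ : Type} (U : κ → Set Plane)
    (hU : ∀ k, IsOpen (U k) ∧ Convex ℝ (U k) ∧ Bornology.IsBounded (U k))
    (hX : ∀ k l, k ≠ l → ¬Cross (U k) (U l)) {a b : κ} (hab : a ≠ b) :
    ∃ (V : κ → Set Plane) (N : Set Plane), volume N = 0 ∧
      (∀ k, IsOpen (V k) ∧ Convex ℝ (V k) ∧ V k ⊆ U k) ∧ (∀ k l, k ≠ l → ¬Cross (V k) (V l)) ∧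
      Disjoint (V a) (V b) ∧ ∀ k, ∀ z ∈ U k, z ∉ N → ∃ l, z ∈ V l := by
  classical
  obtain ⟨v, c, hv, hA, hB⟩ := sep (hU a).1 (hU a).2.1 (hU a).2.2 (hU b).1 (hU b).2.1 (hU b).2.2
    (hX a b hab)
  obtain ⟨L, hL⟩ : ∃ L : κ → Prop, ∀ i, L i ↔ i ≠ b ∧ ∀ z ∈ U i, c < fv v z → z ∈ U b :=
    ⟨_, fun _ => Iff.rfl⟩
  obtain ⟨R, hR⟩ : ∃ R : κ → Prop, ∀ i, R i ↔ ∀ z ∈ U i, fv v z < c → z ∈ U a :=
    ⟨_, fun _ => Iff.rfl⟩
  have ng : ∀ z, fv (-v) z < -c ↔ c < fv v z := fun z => by rw [cut_neg, neg_lt_neg_iff]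
  have ng' : ∀ z, -c < fv (-v) z ↔ fv v z < c := fun z => by rw [cut_neg, neg_lt_neg_iff]
  obtain ⟨V, tri⟩ : ∃ V : κ → Set Plane, ∀ i, (L i ∧ V i = U i ∩ {z | fv v z < c}) ∨
      (¬L i ∧ R i ∧ V i = U i ∩ {z | fv (-v) z < -c}) ∨ (¬L i ∧ ¬R i ∧ V i = U i) := by
    refine ⟨fun i => if L i then U i ∩ {z | fv v z < c} else
      if R i then U i ∩ {z | fv (-v) z < -c} else U i, fun i => ?_⟩
    by_cases l : L i <;> by_cases r : R i <;> simp [l, r]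
  have La : L a := (hL a).2 ⟨hab, hA⟩
  have Lb : ¬L b := fun l => ((hL b).1 l).1 rfl
  have Rb : R b := (hR b).2 hB
  have Va : V a = U a ∩ {z | fv v z < c} := by
    rcases tri a with l | l | l
    exacts [l.2, absurd La l.1, absurd La l.1]
  have Vb : V b = U b ∩ {z | fv (-v) z < -c} := by
    rcases tri b with l | l | l
    exacts [absurd l.1 Lb, l.2.2, absurd Rb l.2.1]
  have lu : ∀ i j, i ≠ j → L i → ¬L j → ¬R j → ¬Cross (U i ∩ {z | fv v z < c}) (U j) :=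
    fun i j e l l' r x => l' ((hL j).2 ⟨fun e' => r (e' ▸ Rb), fun z hz hc => ((hL i).1 l).2 z
      (cut_pasch (hU i).2.1 (hU j).2.1 (hX i j e) x z hz hc) hc⟩)
  have ru : ∀ i j, i ≠ j → R i → ¬R j → ¬Cross (U i ∩ {z | fv (-v) z < -c}) (U j) :=
    fun i j e l r x => r ((hR j).2 fun z hz hc => (hR i).1 l z
      (cut_pasch (hU i).2.1 (hU j).2.1 (hX i j e) x z hz ((ng' z).2 hc)) hc)
  have hf : ∀ k (w : Plane) (e : ℝ), IsOpen (U k ∩ {z | fv w z < e}) ∧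
      Convex ℝ (U k ∩ {z | fv w z < e}) ∧ U k ∩ {z | fv w z < e} ⊆ U k := fun k w e =>
    ⟨(hU k).1.inter (isOpen_lt (continuous_fv _) continuous_const),
      (hU k).2.1.inter (convex_half _ _), inter_subset_left⟩
  refine ⟨V, _, volume_line hv c, fun k => ?_, fun k l e => ?_, ?_, fun k z hz hN => ?_⟩
  · rcases tri k with ⟨-, p⟩ | ⟨-, -, p⟩ | ⟨-, -, p⟩ <;> rw [p]
    exacts [hf k _ _, hf k _ _, ⟨(hU k).1, (hU k).2.1, Subset.rfl⟩]
  · rcases tri k with ⟨p1, p⟩ | ⟨p1, p2, p⟩ | ⟨p1, p2, p⟩ <;>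
      rcases tri l with ⟨q1, q⟩ | ⟨q1, q2, q⟩ | ⟨q1, q2, q⟩ <;> rw [p, q]
    exacts [cut_same (hX k l e) _, cut_opp _ _ _ _, lu k l e p1 q1 q2,
      fun x => cut_opp _ _ _ _ x.symm, cut_same (hX k l e) _, ru k l e p2 q2,
      fun x => lu l k e.symm q1 p1 p2 x.symm, fun x => ru l k e.symm q2 p2 x.symm, hX k l e]
  · rw [Va, Vb]
    exact Set.disjoint_left.2 fun z p q => lt_asymm p.2 ((ng z).1 q.2)
  · rcases tri k with ⟨p1, p⟩ | ⟨p1, p2, p⟩ | ⟨p1, p2, p⟩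
    · rcases lt_or_gt_of_ne hN with l | l
      · exact ⟨k, p ▸ ⟨hz, l⟩⟩
      · exact ⟨b, Vb ▸ ⟨((hL k).1 p1).2 z hz l, (ng z).2 l⟩⟩
    · rcases lt_or_gt_of_ne hN with l | l
      · exact ⟨a, Va ▸ ⟨(hR k).1 p2 z hz l, l⟩⟩
      · exact ⟨k, p ▸ ⟨hz, (ng z).2 l⟩⟩
    · exact ⟨k, p ▸ hz⟩

theorem cut {κ : Type} [Fintype κ] (U : κ → Set Plane)
    (hU : ∀ k, IsOpen (U k) ∧ Convex ℝ (U k) ∧ Bornology.IsBounded (U k))
    (hX : ∀ k l, k ≠ l → ¬Cross (U k) (U l)) :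
    ∃ (V : κ → Set Plane) (N : Set Plane), volume N = 0 ∧
      (∀ k, IsOpen (V k) ∧ Convex ℝ (V k) ∧ V k ⊆ U k) ∧
      (∀ k l, k ≠ l → Disjoint (V k) (V l)) ∧ ∀ k, ∀ z ∈ U k, z ∉ N → ∃ l, z ∈ V l := by
  classical
  obtain ⟨n, hn⟩ : ∃ n, (Finset.univ.filter fun p : κ × κ =>
    p.1 ≠ p.2 ∧ ¬Disjoint (U p.1) (U p.2)).card = n := ⟨_, rfl⟩
  induction n using Nat.strong_induction_on generalizing U with
  | _ n ih =>
  by_cases hd : ∀ k l, k ≠ l → Disjoint (U k) (U l)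
  · exact ⟨U, ∅, measure_empty, fun k => ⟨(hU k).1, (hU k).2.1, Subset.rfl⟩, hd,
      fun k z hz _ => ⟨k, hz⟩⟩
  obtain ⟨a, b, hab, hd⟩ : ∃ a b, a ≠ b ∧ ¬Disjoint (U a) (U b) := by simpa using hd
  obtain ⟨V, N, h0, h1, h2, h3, h4⟩ := cut_step U hU hX hab
  obtain ⟨V', N', k0, k1, k2, k3⟩ := ih _ (hn ▸ Finset.card_lt_card
    ((Finset.ssubset_iff_of_subset fun p hp => by
      simp only [Finset.mem_filter, Finset.mem_univ, true_and] at hp ⊢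
      exact ⟨hp.1, fun d => hp.2 (d.mono (h1 _).2.2 (h1 _).2.2)⟩).2
        ⟨(a, b), by simp [hab, hd], by simp [h3]⟩)) V
    (fun k => ⟨(h1 k).1, (h1 k).2.1, (hU k).2.2.subset (h1 k).2.2⟩) h2 rfl
  refine ⟨V', N ∪ N', measure_union_null h0 k0,
    fun k => ⟨(k1 k).1, (k1 k).2.1, (k1 k).2.2.trans (h1 k).2.2⟩, k2, fun k z hz hN => ?_⟩
  obtain ⟨l, hl⟩ := h4 k z hz fun e => hN (.inl e)
  exact k3 l z hl fun e => hN (.inr e)

end Pool.Agent.Lib.MP_fb520c_co
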