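import Pool.Agent.Lib.MP_fb520c_co.Cap

/-! Definitions for the covering theorem for fat symmetric bodies. -/

set_option autoImplicit false

open MeasureTheory Set Real Metric
open scoped ENNReal

noncomputable section

namespace Pool.Agent.Lib.MP_fb520c_co

/-- `A` and `B` cross: a segment between two points of `A \ B` meets a segment between two points
of `B \ A`. -/
def Cross (A B : Set Plane) : Prop :=
  ∃ a1 ∈ A \ B, ∃ a2 ∈ A \ B, ∃ b1 ∈ B \ A, ∃ b2 ∈ B \ A, ∃ y,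
    y ∈ segment ℝ a1 a2 ∧ y ∈ segment ℝ b1 b2

lemma Cross.symm {A B : Set Plane} (h : Cross A B) : Cross B A := by
  obtain ⟨a1, h1, a2, h2, b1, h3, b2, h4, y, h5, h6⟩ := h
  exact ⟨b1, h3, b2, h4, a1, h1, a2, h2, y, h6, h5⟩

lemma Cross.mono {A B A' B' : Set Plane} (h : Cross A' B') (h1 : A' \ B' ⊆ A \ B)
    (h2 : B' \ A' ⊆ B \ A) : Cross A B := by
  obtain ⟨a1, k1, a2, k2, b1, k3, b2, k4, y, h5, h6⟩ := h
  exact ⟨a1, h1 k1, a2, h1 k2, b1, h2 k3, b2, h2 k4, y, h5, h6⟩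

/-- A symmetric body between the discs of radii `r` and `1`, whose support points have tangential
component at most `τ` and whose inscribed symmetric hexagons have area at most `h`. -/
structure Fat (C : Set Plane) (r τ h : ℝ) : Prop where
  sym : Sym0 C
  inn : closedBall (0 : Plane) r ⊆ C
  out : C ⊆ closedBall (0 : Plane) 1
  tan : ∀ z ∈ C, ∀ θ, (∀ w ∈ C, ip w θ ≤ ip z θ) → |ip z (θ + π / 2)| ≤ τ
  hex : ∀ u ∈ C, ∀ v ∈ C, ∀ t ∈ C, hform u v t ≤ h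

/-- `A` is the open set with support function `p` about the point `a`. -/
structure HasSupp (A : Set Plane) (a : Plane) (p : ℝ → ℝ) : Prop where
  mem : ∀ z, z ∈ A ↔ ∀ θ, ip (z - a) θ < p θ
  per : ∀ θ, p (θ + 2 * π) = p θ

/-- `z` is a point of `C` with a supporting line that misses the origin. -/
def Bd (C : Set Plane) (z : Plane) : Prop :=
  z ∈ C ∧ ∃ v : Plane, fv v z = 1 ∧ ∀ w ∈ C, fv v w ≤ 1

/-- `n` points in polar coordinates that go once around the origin with gaps less than `π`. -/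
structure Cfg (n : ℕ) (θ ρ : ℕ → ℝ) : Prop where
  pos : ∀ k ≤ n, 0 < ρ k
  lo : 0 ≤ θ 0
  hi : ∀ k < n, θ k < 2 * π
  mono : ∀ k < n, θ k ≤ θ (k + 1)
  gap : ∀ k < n, θ (k + 1) < θ k + π
  cθ : θ n = θ 0 + 2 * π
  cρ : ρ n = ρ 0

/-- twice the area of the polygon of a configuration -/
def W (n : ℕ) (θ ρ : ℕ → ℝ) : ℝ :=
  ∑ k ∈ Finset.range n, ρ k * ρ (k + 1) * sin (θ (k + 1) - θ k)

/-- an upper bound for the area of a polygon with at most `n` sides in the unit disc -/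
def ub : ℕ → ℝ
  | 0 => 0
  | 1 => 0
  | 2 => 0
  | 3 => 1.5708
  | 4 => 2.0091
  | 5 => 2.3801
  | 6 => 2.5989
  | 7 => 2.7368
  | 8 => 2.8286
  | 9 => 2.8927
  | 10 => 2.9390
  | 11 => 2.9736
  | 12 => 3.0001
  | 13 => 3.0208
  | 14 => 3.0373
  | _ + 15 => 3.1416

/-- polygons in a disc of radius `ρ` have area at most `c + b (n - 6)` for `lo ≤ b ≤ hi` -/
def DiscOK (lo hi ρ c : ℝ) : Prop :=
  ∀ n : ℕ, ρ ^ 2 * ub n ≤ c + lo * ((n : ℝ) - 6) ∧ ρ ^ 2 * ub n ≤ c + hi * ((n : ℝ) - 6)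

/-- the numerical conditions of the covering theorem -/
structure Num (r τ h D0 D1 D2 lo hi e : ℝ) : Prop where
  r1 : r ≤ 1
  t0 : 0 ≤ τ
  d2 : 0 < D2
  d21 : D2 ≤ D1
  d10 : D1 ≤ D0
  far : (1 - r) ^ 2 + (2 * τ) ^ 2 ≤ D0 ^ 2
  q4 : 2 * (τ ^ 2 + (1 - r + D2 / 2) ^ 2) ≤ D0 ^ 2
  q2 : 4 * ((τ ^ 2 + (1 - r) ^ 2) / D2 + (1 - r) - D2 / 2) ^ 2 + (τ ^ 2 + (1 - r + D1 / 2) ^ 2) ≤
    D0 ^ 2
  q0 : τ ^ 2 + (1 - r) ^ 2 + (1 - r) * D1 < D1 ^ 2 / 2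
  lo0 : 0 ≤ lo
  lohi : lo ≤ hi
  e0 : 0 ≤ e
  slo : ∀ m : ℕ, m < 6 → ub m ≤ h + lo * ((m : ℝ) - 6)
  shi : ∀ n : ℕ, 6 < n → ub n ≤ h + hi * ((n : ℝ) - 6)
  half : ub 3 + 3 * hi ≤ h
  six : 6 * hi ≤ h
  one : DiscOK lo hi 1 (h + e)
  p2 : DiscOK lo hi (1 + D2 / 2) (2 * h - 4 * e)
  p1 : DiscOK lo hi (1 + D1 / 2) (2 * h - 2 * e)
  p0 : DiscOK lo hi (1 + D0 / 2) (2 * h)

end Pool.Agent.Lib.MP_fb520c_co
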