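import Pool.Agent.Lib.MP_fb520c_co.Fat.Poly0

/-! Polygons in a disc. -/

set_option autoImplicit false

open MeasureTheory Set Real Metric
open scoped ENNReal

noncomputable section

namespace Pool.Agent.Lib.MP_fb520c_co

lemma Disc_sin {x : ℝ} (hx : 0 ≤ x) : sin x ≤ x - x ^ 3 / 6 + x ^ 5 / 120 := by
  have h1 : ∀ t : ℝ, 0 ≤ t → 0 ≤ 1 - t ^ 2 / 2 + t ^ 4 / 24 - cos t := fun t ht => by
    have := le_of_deriv (G := fun t => 1 - t ^ 2 / 2 + t ^ 4 / 24 - cos t)
      (G' := fun t => sin t - (t - t ^ 3 / 6)) (fun t => ((((hasDerivAt_pow 2 t).div_const 2).const_sub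
        1).add ((hasDerivAt_pow 4 t).div_const 24)).sub (hasDerivAt_cos t) |>.congr_deriv (by
          norm_num; ring)) ht fun t h => sub_nonneg.2 (sin_ge_sub_cube h.1)
    simpa using this
  have := le_of_deriv (G := fun t => t - t ^ 3 / 6 + t ^ 5 / 120 - sin t)
    (G' := fun t => 1 - t ^ 2 / 2 + t ^ 4 / 24 - cos t) (fun t => (((hasDerivAt_id' t).sub
      ((hasDerivAt_pow 3 t).div_const 6)).add ((hasDerivAt_pow 5 t).div_const 120)).sub
        (hasDerivAt_sin t) |>.congr_deriv (by norm_num; ring)) hx fun t h => h1 t h.1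
  simpa using this

lemma ub_mono : Monotone ub := by
  refine monotone_nat_of_le_succ fun n => ?_
  rcases lt_or_ge n 15 with h | h
  · interval_cases n <;> simp only [ub] <;> norm_num
  · obtain ⟨m, rfl⟩ := Nat.exists_eq_add_of_le' h
    exact le_refl (3.1416 : ℝ)

lemma ub_nonneg (n : ℕ) : 0 ≤ ub n := by
  exact ub_mono (Nat.zero_le n)

lemma Cfg.three {n : ℕ} {θ ρ : ℕ → ℝ} (h : Cfg n θ ρ) : 3 ≤ n := by
  have h1 := h.cθ
  have h2 := h.gap 0
  have h3 := h.gap 1
  have := pi_pos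
  by_contra l
  rw [not_le] at l
  interval_cases n
  · linarith
  · linarith [h2 one_pos]
  · linarith [h2 two_pos, h3 one_lt_two]

lemma sin_le_ub {n : ℕ} (h : 3 ≤ n) : (n : ℝ) / 2 * sin (2 * π / n) ≤ ub n := by
  have n0 : (0 : ℝ) < n := Nat.cast_pos.2 (by omega)
  have x0 : 0 ≤ 2 * π / n := by positivity
  rcases lt_or_ge n 15 with l | l
  · have p1 := pi_lt_d6
    have p3 : (3.141592 : ℝ) ^ 3 ≤ π ^ 3 := pow_le_pow_left₀ (by norm_num) pi_gt_d6.le 3
    have p5 : π ^ 5 ≤ (3.141593 : ℝ) ^ 5 := pow_le_pow_left₀ pi_pos.le p1.le 5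
    refine (mul_le_mul_of_nonneg_left (Disc_sin x0) (by positivity)).trans ?_
    rw [show (n : ℝ) / 2 * (2 * π / n - (2 * π / n) ^ 3 / 6 + (2 * π / n) ^ 5 / 120) =
      π - 2 / 3 * π ^ 3 / n ^ 2 + 2 / 15 * π ^ 5 / n ^ 4 by field_simp; ring]
    interval_cases n <;> simp only [ub] <;> push_cast <;> linarith
  · refine (mul_le_mul_of_nonneg_left (sin_le x0) (by positivity)).trans ?_
    rw [show (n : ℝ) / 2 * (2 * π / n) = π by field_simp]
    obtain ⟨m, rfl⟩ := Nat.exists_eq_add_of_le' l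
    exact pi_lt_d4.le

lemma Cfg.W_le {n : ℕ} {θ σ : ℕ → ℝ} (h : Cfg n θ σ) {ρ : ℝ} (hσ : ∀ k ≤ n, σ k ≤ ρ) :
    W n θ σ / 2 ≤ ρ ^ 2 * ub n := by
  have n0 : (0 : ℝ) < n := Nat.cast_pos.2 (by have := h.three; omega)
  have m : ∀ k ∈ Finset.range n, θ (k + 1) - θ k ∈ Icc 0 π := fun k hk =>
    ⟨sub_nonneg.2 (h.mono k (Finset.mem_range.1 hk)),
      by linarith [h.gap k (Finset.mem_range.1 hk)]⟩
  have J := strictConcaveOn_sin_Icc.concaveOn.le_map_sum (w := fun _ => (n : ℝ)⁻¹)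
    (fun _ _ => by positivity) (by simp [n0.ne']) m
  simp only [smul_eq_mul, ← Finset.mul_sum, Finset.sum_range_sub, h.cθ, add_sub_cancel_left] at J
  rw [inv_mul_le_iff₀ n0, ← div_eq_inv_mul] at J
  have K : W n θ σ ≤ ρ ^ 2 * ∑ k ∈ Finset.range n, sin (θ (k + 1) - θ k) := by
    rw [W, Finset.mul_sum]
    refine Finset.sum_le_sum fun k hk => mul_le_mul_of_nonneg_right ?_
      (sin_nonneg_of_mem_Icc (m k hk))
    have hk' := Finset.mem_range.1 hk
    rw [pow_two]
    exact mul_le_mul (hσ k hk'.le) (hσ _ hk') (h.pos _ hk').le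
      ((h.pos k hk'.le).le.trans (hσ k hk'.le))
  have := mul_le_mul_of_nonneg_left J (sq_nonneg ρ)
  have := mul_le_mul_of_nonneg_left (sin_le_ub h.three) (sq_nonneg ρ)
  linarith

/-- a nonempty bounded polygon has at least three sides -/
lemma three_le_card {S : Finset (Plane × ℝ)} (hne : (poly S).Nonempty)
    (hb : Bornology.IsBounded (poly S)) : 3 ≤ S.card := by
  obtain ⟨c, hc⟩ := hne
  obtain ⟨n, h1, θ, σ, h2, -⟩ := poly0 hc hb
  exact h2.three.trans h1

lemma half_disc {S : Finset (Plane × ℝ)} {c : Plane} {ρ : ℝ} (hρ : 0 ≤ ρ)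
    (h : poly S ⊆ closedBall c ρ) (hc : c ∉ poly S) :
    volume (poly S) ≤ ENNReal.ofReal (ρ ^ 2 * ub 3) := by
  have m := (isOpen_poly S).measurableSet
  have p := Measure.measurePreserving_sub_left (volume : Measure Plane) (c + c)
  have d : Disjoint (poly S) ((fun z => c + c - z) ⁻¹' poly S) :=
    disjoint_left.2 fun z h1 h2 => hc fun k hk => by
      have a := h1 k hk
      have b := h2 k hk
      simp only [fv, PiLp.sub_apply, PiLp.add_apply] at a b ⊢
      linarith
  have s : poly S ∪ (fun z => c + c - z) ⁻¹' poly S ⊆ closedBall c ρ :=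
    union_subset h fun z hz => by
      have := h hz
      rw [mem_closedBall, dist_eq_norm] at this ⊢
      rwa [show c + c - z - c = -(z - c) by abel, norm_neg] at this
  have e := measure_mono (μ := volume) s
  rw [measure_union d (p.measurable m), p.measure_preimage m.nullMeasurableSet,
    volume_closedBall_eq c ρ hρ, ← two_mul] at e
  refine (ENNReal.mul_le_mul_iff_right two_ne_zero ENNReal.ofNat_ne_top).1 (e.trans ?_)
  rw [← ENNReal.ofReal_ofNat, ← ENNReal.ofReal_mul (by norm_num)]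
  refine ENNReal.ofReal_le_ofReal ?_
  have := mul_le_mul_of_nonneg_right pi_lt_d4.le (sq_nonneg ρ)
  simp only [ub]
  linarith

theorem poly_disc {S : Finset (Plane × ℝ)} {c : Plane} {ρ : ℝ} (hρ : 0 ≤ ρ)
    (h : poly S ⊆ closedBall c ρ) : volume (poly S) ≤ ENNReal.ofReal (ρ ^ 2 * ub S.card) := by
  rcases (poly S).eq_empty_or_nonempty with e | e
  · rw [e, measure_empty]
    exact zero_le
  have hb := isBounded_closedBall.subset h
  by_cases hc : c ∈ poly S
  · obtain ⟨n, h1, θ, σ, h2, h3, h4⟩ := poly0 hc hb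
    refine h4.trans (ENNReal.ofReal_le_ofReal ((h2.W_le (ρ := ρ) fun k hk => ?_).trans
      (mul_le_mul_of_nonneg_left (ub_mono h1) (sq_nonneg ρ))))
    have := closure_minimal h isClosed_closedBall (h3 k hk)
    rw [mem_closedBall, dist_eq_norm, add_sub_cancel_left, norm_pol] at this
    exact (le_abs_self _).trans this
  · exact (half_disc hρ h hc).trans (ENNReal.ofReal_le_ofReal
      (mul_le_mul_of_nonneg_left (ub_mono (three_le_card e hb)) (sq_nonneg ρ)))

end Pool.Agent.Lib.MP_fb520c_co
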