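import Pool.Agent.Lib.MP_fb520c_co.Fat.Core

/-! Inscribed polygons with six sides on average. -/

set_option autoImplicit false

open MeasureTheory Set Real Metric
open scoped ENNReal

noncomputable section

namespace Pool.Agent.Lib.MP_fb520c_co

lemma dowker_pol_pi (r t : ℝ) : pol r (t + π) = -pol r t := by
  apply plane_ext <;> simp [pol]

lemma dowker_dt (a b s t : ℝ) : dt (pol a s) (pol b t) = a * b * sin (t - s) := by
  simp only [dt, pol, pt_zero, pt_one, sin_sub]; ring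

lemma dowker_dt_neg (u v : Plane) : dt (-u) (-v) = dt u v := by
  simp [dt]

lemma dowker_dt_anti (u v : Plane) : dt u (-v) = dt v u := by
  simp [dt]; ring

lemma dowker_bd {C : Set Plane} (hC : Sym0 C) {r t : ℝ} (h : Bd C (pol r t)) (m : ℕ) :
    Bd C (pol r (t + m * π)) := by
  induction m with
  | zero => simpa using h
  | succ m ih =>
    have := hC.bd_neg ih
    rw [← dowker_pol_pi] at this
    have e : t + ((m + 1 : ℕ) : ℝ) * π = t + m * π + π := by push_cast; ring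
    rw [e]
    exact this

lemma dowker_sorted {C : Set Plane} (hC : Sym0 C) {h : ℝ}
    (hh : ∀ u ∈ C, ∀ v ∈ C, ∀ t ∈ C, hform u v t ≤ h) {N K : ℕ} (hK : 0 < K) (hN : N = 3 * K)
    (α r : Fin N → ℝ) (hα : Monotone α) (h0 : ∀ x, 0 ≤ α x) (h1 : ∀ x, α x < π)
    (hr : ∀ x, 0 ≤ r x) (hb : ∀ x, Bd C (pol (r x) (α x))) (σ : Equiv.Perm (Fin N))
    (hσ : (Finset.univ.filter fun x => σ x ≤ x).card = K) :
    ∑ x, r x * r (σ x) * sin (α (σ x) + (if x < σ x then 0 else π) - α x) ≤ K * h := by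
  have hN0 : 0 < N := by omega
  obtain ⟨ix, hixv⟩ : ∃ ix : ℕ → Fin N, ∀ x, (ix x : ℕ) = x % N :=
    ⟨fun x => ⟨x % N, Nat.mod_lt _ hN0⟩, fun _ => rfl⟩
  obtain ⟨A, hAd⟩ : ∃ A : ℕ → ℝ, ∀ x, A x = α (ix x) + ((x / N : ℕ) : ℝ) * π :=
    ⟨_, fun _ => rfl⟩
  obtain ⟨P, hPd⟩ : ∃ P : ℕ → Plane, ∀ x, P x = pol (r (ix x)) (A x) := ⟨_, fun _ => rfl⟩
  have hix : ∀ x, ix (x + N) = ix x := fun x => Fin.ext (by rw [hixv, hixv, Nat.add_mod_right])
  have hix' : ∀ x : Fin N, ix x = x := fun x => Fin.ext (by rw [hixv, Nat.mod_eq_of_lt x.2])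
  have hA : ∀ x, A (x + N) = A x + π := fun x => by
    rw [hAd, hAd, hix, Nat.add_div_right _ hN0]
    push_cast
    ring
  have hA' : ∀ x : Fin N, A x = α x := fun x => by
    rw [hAd, hix', Nat.div_eq_of_lt x.2]
    simp
  have hAm : ∀ x y, x ≤ y → A x ≤ A y := fun x y hxy => by
    rw [hAd, hAd]
    rcases (Nat.div_le_div_right (c := N) hxy).eq_or_lt with e | e
    · have e1 := Nat.div_add_mod x N
      have e2 := Nat.div_add_mod y N
      rw [e] at e1
      have : ix x ≤ ix y := by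
        rw [Fin.le_def, hixv, hixv]
        omega
      rw [e]
      linarith [hα this]
    · have e' : ((x / N : ℕ) : ℝ) + 1 ≤ ((y / N : ℕ) : ℝ) := by exact_mod_cast e
      have := mul_le_mul_of_nonneg_right e' pi_pos.le
      linarith [h1 (ix x), h0 (ix y)]
  have hP : ∀ x, P (x + N) = -P x := fun x => by
    rw [hPd, hPd, hix, hA, dowker_pol_pi]
  have hPb : ∀ x, Bd C (P x) := fun x => by
    rw [hPd, hAd]
    exact dowker_bd hC (hb _) _
  have hw : ∀ x y, x ≤ y → y ≤ x + N → 0 ≤ dt (P x) (P y) := fun x y k1 k2 => by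
    rw [hPd, hPd, dowker_dt]
    have a1 := hAm x y k1
    have a2 := hAm y _ k2
    rw [hA] at a2
    exact mul_nonneg (mul_nonneg (hr _) (hr _))
      (sin_nonneg_of_nonneg_of_le_pi (by linarith) (by linarith))
  have key := core (N := N) hK (by omega) (fun x y => dt (P x) (P y))
    (fun x y => by simp only [hP, dowker_dt_neg])
    (fun a b c d k1 k2 k3 k4 => hC.monge (hPb a) (hPb b) (hPb c) (hPb d)
      (hw _ _ (by omega) (by omega)) (hw _ _ (by omega) (by omega))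
      (hw _ _ (by omega) (by omega)) (hw _ _ (by omega) (by omega))
      (hw _ _ (by omega) (by omega)) (hw _ _ (by omega) (by omega))) σ hσ
  refine le_trans (le_of_eq (Finset.sum_congr rfl fun x _ => ?_)) (key.trans ?_)
  · by_cases hx : x < σ x
    · simp only [hx, if_true]
      rw [hPd, hPd, dowker_dt, hix', hix', hA', hA', add_zero]
    · simp only [hx, if_false]
      rw [hPd, hPd, dowker_dt, hix, hA, hix', hix', hA', hA']
  · rw [Fin.sum_univ_eq_sum_range (fun x => dt (P x) (P (x + K))) N]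
    have e : N = K + K + K := by omega
    have e' : Finset.range N = Finset.range (K + K + K) := by rw [← e]
    rw [e', Finset.sum_range_add, Finset.sum_range_add, ← Finset.sum_add_distrib,
      ← Finset.sum_add_distrib]
    refine (Finset.sum_le_sum (g := fun _ => h) fun x _ => ?_).trans (by simp)
    have := hh _ (hPb x).1 _ (hPb (x + K)).1 _ (hPb (x + K + K)).1
    rw [show K + K + x + K = x + N by omega, hP, dowker_dt_anti, show K + K + x = x + K + K by omega,
      show K + x = x + K by omega]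
    exact this

lemma dowker_abs {C : Set Plane} (hC : Sym0 C) {h : ℝ}
    (hh : ∀ u ∈ C, ∀ v ∈ C, ∀ t ∈ C, hform u v t ≤ h) {V : Type} [Fintype V] {K : ℕ}
    (hK : 0 < K) (hN : Fintype.card V = 3 * K) (α r g : V → ℝ) (κ d : V → ℕ)
    (h0 : ∀ x, 0 ≤ α x) (h1 : ∀ x, α x < π) (hr : ∀ x, 0 ≤ r x)
    (hb : ∀ x, Bd C (pol (r x) (α x))) (s : Equiv.Perm V)
    (hs : ∀ v, (d v = 0 ∧ κ v < κ (s v) ∧ α v ≤ α (s v) ∧ g v = α (s v) - α v) ∨
      (d v = 1 ∧ α (s v) < α v ∧ g v = α (s v) + π - α v))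
    (hd : ∑ v, d v = K) : ∑ v, r v * r (s v) * sin (g v) ≤ K * h := by
  obtain ⟨E, hE⟩ : ∃ E : Fin (3 * K) ≃ V, Monotone fun x => toLex (α (E x), κ (E x)) := by
    let e : Fin (3 * K) ≃ V := (Fintype.equivFinOfCardEq hN).symm
    let f : Fin (3 * K) → ℝ ×ₗ ℕ := fun x => toLex (α (e x), κ (e x))
    exact ⟨(Tuple.sort f).trans e, Tuple.monotone_sort f⟩
  obtain ⟨σ, hσ⟩ : ∃ σ : Equiv.Perm (Fin (3 * K)), ∀ x, E (σ x) = s (E x) :=
    ⟨E.trans (s.trans E.symm), fun x => by simp⟩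
  have hcase : ∀ x, (d (E x) = 0 ∧ x < σ x ∧ g (E x) = α (E (σ x)) - α (E x)) ∨
      (d (E x) = 1 ∧ σ x < x ∧ g (E x) = α (E (σ x)) + π - α (E x)) := fun x => by
    rcases hs (E x) with ⟨k1, k2, k3, k4⟩ | ⟨k1, k2, k3⟩
    · refine Or.inl ⟨k1, hE.reflect_lt ?_, by rw [hσ, k4]⟩
      simp only [hσ]
      exact Prod.Lex.toLex_lt_toLex'.2 ⟨k3, fun _ => k2⟩
    · refine Or.inr ⟨k1, hE.reflect_lt ?_, by rw [hσ, k3]⟩
      simp only [hσ]
      exact Prod.Lex.toLex_lt_toLex.2 (Or.inl k2)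
  have key := dowker_sorted hC hh hK rfl (fun x => α (E x)) (fun x => r (E x))
    (fun x y hxy => Prod.Lex.monotone_fst _ _ (hE hxy)) (fun x => h0 _) (fun x => h1 _)
    (fun x => hr _) (fun x => hb _) σ (by
      refine Eq.trans ?_ hd
      rw [← E.sum_comp d, Finset.card_filter]
      refine Finset.sum_congr rfl fun x _ => ?_
      rcases hcase x with ⟨k1, k2, -⟩ | ⟨k1, k2, -⟩
      · rw [k1, if_neg (not_le.2 k2)]
      · rw [k1, if_pos k2.le])
  rw [← E.sum_comp]
  refine le_trans (le_of_eq (Finset.sum_congr rfl fun x _ => ?_)) key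
  rcases hcase x with ⟨-, k2, k3⟩ | ⟨-, k2, k3⟩
  · rw [if_pos k2, k3, add_zero, hσ]
  · rw [if_neg (not_lt.2 k2.le), k3, hσ]

lemma dowker_lev {n : ℕ} {θ ρ : ℕ → ℝ} (hc : Cfg n θ ρ) : ∃ (α : ℕ → ℝ) (d : ℕ → ℕ),
    (∀ k, 0 ≤ α k) ∧ (∀ k, α k < π) ∧ α n = α 0 ∧
    (∀ k < n, θ k = α k ∨ θ k = α k + π) ∧
    (∀ k < n, (d k = 0 ∧ k + 1 < n ∧ α k ≤ α (k + 1) ∧ θ (k + 1) - θ k = α (k + 1) - α k) ∨
      (d k = 1 ∧ α (k + 1) < α k ∧ θ (k + 1) - θ k = α (k + 1) + π - α k)) ∧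
    ∑ k ∈ Finset.range n, d k = 2 := by
  obtain ⟨l, hl⟩ : ∃ l : ℕ → ℤ, ∀ k, l k = ⌊θ k / π⌋ := ⟨_, fun _ => rfl⟩
  have b1 : ∀ k, (l k : ℝ) * π ≤ θ k := fun k => by
    rw [hl]
    exact (le_div_iff₀ pi_pos).1 (Int.floor_le _)
  have b2 : ∀ k, θ k < (l k : ℝ) * π + π := fun k => by
    rw [hl]
    have := (div_lt_iff₀ pi_pos).1 (Int.lt_floor_add_one (θ k / π))
    linarith
  have cmp : ∀ a b : ℤ, (a : ℝ) * π < b * π → a < b := fun a b k => by
    exact_mod_cast lt_of_mul_lt_mul_right k pi_pos.le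
  have hn : l n = l 0 + 2 := by
    have a1 := cmp (l n) (l 0 + 3) (by push_cast; linarith [b1 n, b2 0, hc.cθ])
    have a2 := cmp (l 0 + 1) (l n) (by push_cast; linarith [b1 0, b2 n, hc.cθ])
    omega
  have hge : ∀ k ≤ n, 0 ≤ θ k := fun k hk => by
    induction k with
    | zero => exact hc.lo
    | succ k ih => exact (ih (by omega)).trans (hc.mono k (by omega))
  have l0 : ∀ k ≤ n, 0 ≤ l k := fun k hk => by
    have := cmp (-1) (l k) (by push_cast; linarith [b2 k, hge k hk])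
    omega
  have l1 : ∀ k < n, l k ≤ 1 := fun k hk => by
    have := cmp (l k) 2 (by push_cast; linarith [b1 k, hc.hi k hk])
    omega
  have st : ∀ k < n, l (k + 1) = l k ∨ l (k + 1) = l k + 1 := fun k hk => by
    have a1 := cmp (l (k + 1)) (l k + 2) (by push_cast; linarith [b1 (k + 1), b2 k, hc.gap k hk])
    have a2 := cmp (l k - 1) (l (k + 1)) (by push_cast; linarith [b1 k, b2 (k + 1), hc.mono k hk])
    omega
  refine ⟨fun k => θ k - l k * π, fun k => (l (k + 1) - l k).toNat, fun k => by linarith [b1 k],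
    fun k => by linarith [b2 k], ?_, fun k hk => ?_, fun k hk => ?_, ?_⟩
  · simp only [hn, hc.cθ]
    push_cast
    ring
  · have a1 := l0 k hk.le
    have a2 := l1 k hk
    rcases (show l k = 0 ∨ l k = 1 by omega) with e | e
    · left; simp [e]
    · right; simp [e]
  · rcases st k hk with e | e
    · refine Or.inl ⟨by simp [e], ?_, ?_, ?_⟩
      · by_contra hk'
        have e' : k + 1 = n := by omega
        have a1 := l0 0 (Nat.zero_le _)
        have a2 := l1 k hk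
        rw [e'] at e
        omega
      · simp only [e]
        linarith [hc.mono k hk]
      · simp only [e]
        ring
    · refine Or.inr ⟨by simp [e], ?_, ?_⟩
      · simp only [e]
        push_cast
        linarith [hc.gap k hk]
      · simp only [e]
        push_cast
        ring
  · have a1 : ∑ k ∈ Finset.range n, (l (k + 1) - l k) = l n - l 0 := Finset.sum_range_sub l n
    have a2 : ((∑ k ∈ Finset.range n, (l (k + 1) - l k).toNat : ℕ) : ℤ) =
        ∑ k ∈ Finset.range n, (l (k + 1) - l k) := by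
      push_cast
      refine Finset.sum_congr rfl fun k hk => ?_
      have := st k (Finset.mem_range.1 hk)
      omega
    simp only []
    omega

lemma dowker_rot {n : ℕ} (k : Fin n) :
    ((k : ℕ) + 1 < n ∧ (finRotate n k : ℕ) = k + 1) ∨
      ((k : ℕ) + 1 = n ∧ (finRotate n k : ℕ) = 0) := by
  obtain ⟨m, rfl⟩ : ∃ m, n = m + 1 := ⟨n - 1, by have := k.2; omega⟩
  rw [coe_finRotate]
  by_cases hk : k = Fin.last m
  · right
    simp [hk]
  · left
    have := Fin.val_lt_last hk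
    simp [hk, this]

theorem dowker_in {C : Set Plane} (hC : Sym0 C) {h : ℝ}
    (hh : ∀ u ∈ C, ∀ v ∈ C, ∀ t ∈ C, hform u v t ≤ h) {ι : Type} [Fintype ι] (n : ι → ℕ)
    (θ ρ : ι → ℕ → ℝ) (hc : ∀ i, Cfg (n i) (θ i) (ρ i))
    (hb : ∀ i, ∀ k < n i, Bd C (pol (ρ i k) (θ i k))) (hn : ∑ i, n i = 6 * Fintype.card ι) :
    ∑ i, W (n i) (θ i) (ρ i) ≤ 2 * Fintype.card ι * h := by
  rcases Nat.eq_zero_or_pos (Fintype.card ι) with hM | hM
  · have := Fintype.card_eq_zero_iff.1 hM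
    simp
  choose α d h0 h1 hα hθ hs hd using fun i => dowker_lev (hc i)
  have hrα : ∀ i (k : Fin (n i)), α i (finRotate (n i) k) = α i (k + 1) := fun i k => by
    rcases dowker_rot k with ⟨-, e⟩ | ⟨e', e⟩
    · rw [e]
    · rw [e, e', hα]
  have hrρ : ∀ i (k : Fin (n i)), ρ i (finRotate (n i) k) = ρ i (k + 1) := fun i k => by
    rcases dowker_rot k with ⟨-, e⟩ | ⟨e', e⟩
    · rw [e]
    · rw [e, e', (hc i).cρ]
  have key := dowker_abs hC hh (V := Σ i, Fin (n i)) (K := 2 * Fintype.card ι) (by omega)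
    (by rw [Fintype.card_sigma]; simp only [Fintype.card_fin]; omega)
    (fun v => α v.1 v.2) (fun v => ρ v.1 v.2) (fun v => θ v.1 (v.2 + 1) - θ v.1 v.2)
    (fun v => v.2) (fun v => d v.1 v.2) (fun v => h0 _ _) (fun v => h1 _ _)
    (fun v => ((hc v.1).pos _ v.2.2.le).le)
    (fun v => by
      have b := hb v.1 v.2 v.2.2
      rcases hθ v.1 v.2 v.2.2 with e | e
      · rwa [e] at b
      · have b' := hC.bd_neg b
        rwa [e, dowker_pol_pi, neg_neg] at b')
    (Equiv.sigmaCongrRight fun i => finRotate (n i))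
    (fun ⟨i, k⟩ => by
      change (d i k = 0 ∧ (k : ℕ) < finRotate (n i) k ∧ α i k ≤ α i (finRotate (n i) k) ∧
          θ i (k + 1) - θ i k = α i (finRotate (n i) k) - α i k) ∨
        (d i k = 1 ∧ α i (finRotate (n i) k) < α i k ∧
          θ i (k + 1) - θ i k = α i (finRotate (n i) k) + π - α i k)
      rw [hrα]
      rcases hs i k k.2 with ⟨k1, k2, k3, k4⟩ | ⟨k1, k2, k3⟩
      · refine Or.inl ⟨k1, ?_, k3, k4⟩
        rcases dowker_rot k with ⟨-, e⟩ | ⟨e', -⟩ <;> omega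
      · exact Or.inr ⟨k1, k2, k3⟩)
    (by
      rw [Fintype.sum_sigma]
      simp only [fun i => Fin.sum_univ_eq_sum_range (d i) (n i), hd]
      simp [mul_comm])
  rw [Fintype.sum_sigma] at key
  refine le_trans (le_of_eq (Finset.sum_congr rfl fun i _ => ?_)) (key.trans (le_of_eq ?_))
  · refine (Fin.sum_univ_eq_sum_range
      (fun k => ρ i k * ρ i (k + 1) * sin (θ i (k + 1) - θ i k)) (n i)).symm.trans
      (Finset.sum_congr rfl fun k _ => ?_)
    rw [← hrρ]
    rfl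
  · push_cast
    ring

end Pool.Agent.Lib.MP_fb520c_co
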