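import Pool.Agent.Lib.MP_fb520c_co.Fat.Defs

/-! Matching close centres, closest pairs first. -/

set_option autoImplicit false

open MeasureTheory Set Real Metric
open scoped ENNReal

noncomputable section

namespace Pool.Agent.Lib.MP_fb520c_co

lemma match_aux {ι : Type} (c : ι → Plane) (D0 : ℝ) (s : Finset ι) :
    ∃ (U : Finset ι) (P : Finset (ι × ι)), U ⊆ s ∧ U.card + 2 * P.card ≤ s.card ∧
      (∀ i ∈ s, i ∈ U ∨ ∃ p ∈ P, i = p.1 ∨ i = p.2) ∧ (∀ p ∈ P, dist (c p.1) (c p.2) ≤ D0) ∧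
      (∀ i ∈ U, ∀ j ∈ U, i ≠ j → D0 < dist (c i) (c j)) ∧
      ∀ p ∈ P, ∀ i ∈ U, dist (c p.1) (c p.2) ≤ dist (c i) (c p.1) ∧
        dist (c p.1) (c p.2) ≤ dist (c i) (c p.2) := by
  classical
  induction s using Finset.strongInduction with
  | H s ih =>
  by_cases h : ∀ i ∈ s, ∀ j ∈ s, i ≠ j → D0 < dist (c i) (c j)
  · exact ⟨s, ∅, subset_rfl, by simp, fun i hi => .inl hi, by simp, h, by simp⟩
  push Not at h
  obtain ⟨i0, hi0, j0, hj0, n0, d0⟩ := h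
  obtain ⟨⟨i, j⟩, hp, hm⟩ := Finset.exists_min_image s.offDiag (fun p => dist (c p.1) (c p.2))
    ⟨(i0, j0), Finset.mem_offDiag.2 ⟨hi0, hj0, n0⟩⟩
  obtain ⟨hi, hj, n⟩ := Finset.mem_offDiag.1 hp
  have hj' : j ∈ s.erase i := Finset.mem_erase.2 ⟨Ne.symm n, hj⟩
  obtain ⟨U, P, u0, u1, u2, u3, u4, u5⟩ := ih ((s.erase i).erase j)
    (Finset.ssubset_of_subset_of_ssubset (Finset.erase_subset _ _) (Finset.erase_ssubset hi))
  have m : ∀ k ∈ U, k ≠ j ∧ k ≠ i ∧ k ∈ s := fun k hk => by simpa using u0 hk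
  refine ⟨U, insert (i, j) P, fun k hk => (m k hk).2.2, ?_, fun k hk => ?_,
    Finset.forall_mem_insert _ _ _ |>.2
      ⟨(hm (i0, j0) (Finset.mem_offDiag.2 ⟨hi0, hj0, n0⟩)).trans d0, u3⟩, u4,
    Finset.forall_mem_insert _ _ _ |>.2 ⟨fun k hk => ⟨hm (k, i) (Finset.mem_offDiag.2
      ⟨(m k hk).2.2, hi, (m k hk).2.1⟩), hm (k, j) (Finset.mem_offDiag.2
      ⟨(m k hk).2.2, hj, (m k hk).1⟩)⟩, u5⟩⟩
  · have e1 := Finset.card_erase_add_one hi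
    have e2 := Finset.card_erase_add_one hj'
    have e3 := Finset.card_insert_le (i, j) P
    simp only at e1
    omega
  · by_cases k1 : k = i
    · exact .inr ⟨_, Finset.mem_insert_self _ _, .inl k1⟩
    by_cases k2 : k = j
    · exact .inr ⟨_, Finset.mem_insert_self _ _, .inr k2⟩
    exact (u2 k (by simp [k1, k2, hk])).imp_right fun ⟨p, h1, h2⟩ =>
      ⟨p, Finset.mem_insert_of_mem h1, h2⟩

theorem matching {ι : Type} (c : ι → Plane) (D0 : ℝ) (s : Finset ι) :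
    ∃ (U : Finset ι) (P : Finset (ι × ι)), U.card + 2 * P.card ≤ s.card ∧
      (∀ i ∈ s, i ∈ U ∨ ∃ p ∈ P, i = p.1 ∨ i = p.2) ∧ (∀ p ∈ P, dist (c p.1) (c p.2) ≤ D0) ∧
      (∀ i ∈ U, ∀ j ∈ U, i ≠ j → D0 < dist (c i) (c j)) ∧
      ∀ p ∈ P, ∀ i ∈ U, dist (c p.1) (c p.2) ≤ dist (c i) (c p.1) ∧
        dist (c p.1) (c p.2) ≤ dist (c i) (c p.2) := by
  obtain ⟨U, P, -, h⟩ := match_aux c D0 s
  exact ⟨U, P, h⟩

lemma match_dist (p q : Plane) : dist p q ^ 2 = (p 0 - q 0) ^ 2 + (p 1 - q 1) ^ 2 := by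
  rw [dist_eq_norm, norm_sq_eq]
  rfl

lemma match_mid (a b : Plane) (k : Fin 2) : midpoint ℝ a b k = (a k + b k) / 2 := by
  rw [midpoint_eq_smul_add]
  simp only [PiLp.smul_apply, PiLp.add_apply, smul_eq_mul, invOf_eq_inv]
  ring

lemma match_sgn {x y : ℝ} (h : decide (0 ≤ x) = decide (0 ≤ y)) : 0 ≤ x * y := by
  by_cases h1 : 0 ≤ x
  · exact mul_nonneg h1 (by simpa [h1] using h)
  · exact mul_nonneg_of_nonpos_of_nonpos (not_le.1 h1).le (le_of_lt (by simpa [h1] using h))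

lemma match_two {D w X x y x' y' u v : ℝ} (hD : 0 < D) (h1 : |x| ≤ D * w) (h2 : |x'| ≤ D * w)
    (h3 : x ^ 2 + y ^ 2 ≤ D ^ 2 * X) (h4 : x' ^ 2 + y' ^ 2 ≤ D ^ 2 * X) (h5 : 0 ≤ y * y')
    (h6 : D ^ 2 * (u ^ 2 + v ^ 2) = (x - x') ^ 2 + (y - y') ^ 2) :
    u ^ 2 + v ^ 2 ≤ 4 * w ^ 2 + X := by
  obtain ⟨a1, a2⟩ := abs_le.1 h1
  obtain ⟨a3, a4⟩ := abs_le.1 h2
  have k1 : (x - x') ^ 2 ≤ (2 * (D * w)) ^ 2 := sq_le_sq' (by linarith) (by linarith)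
  have k2 : (y - y') ^ 2 ≤ D ^ 2 * X := by
    rcases le_total (y ^ 2) (y' ^ 2) with h | h
    · have : y ^ 2 ≤ y * y' := abs_le_of_sq_le_sq' (by nlinarith [sq_nonneg y]) h5 |>.2
      nlinarith [sq_nonneg x']
    · have : y' ^ 2 ≤ y * y' := abs_le_of_sq_le_sq' (by nlinarith [sq_nonneg y']) h5 |>.2
      nlinarith [sq_nonneg x]
  refine le_of_mul_le_mul_left ?_ (pow_pos hD 2)
  nlinarith

theorem count {r τ h D0 D1 D2 lo hi e : ℝ} (hN : Num r τ h D0 D1 D2 lo hi e) {ι : Type}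
    (c : ι → Plane) (T : Finset ι) (a b : Plane)
    (h1 : ∀ i ∈ T, ∀ j ∈ T, i ≠ j → D0 < dist (c i) (c j))
    (h2 : ∀ i ∈ T, dist a b ≤ dist (c i) a ∧ dist a b ≤ dist (c i) b)
    (h3 : ∀ i ∈ T, dist (c i) (midpoint ℝ a b) ^ 2 ≤ τ ^ 2 + (1 - r + dist a b / 2) ^ 2) :
    (dist a b ≤ D2 → T.card ≤ 4) ∧ (D2 ≤ dist a b → dist a b ≤ D1 → T.card ≤ 2) ∧
      (D1 ≤ dist a b → T.card = 0) := by
  obtain ⟨D, hD⟩ : ∃ D, D = dist a b := ⟨_, rfl⟩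
  have e := match_dist a b
  have D0' : 0 ≤ D := hD ▸ dist_nonneg
  rw [← hD] at h2 h3 e ⊢
  have r1 := sub_nonneg.2 hN.r1
  have d2 := hN.d2
  have d21 := hN.d21
  have d10 := hN.d10
  obtain ⟨x, hx⟩ : ∃ x : ι → ℝ, ∀ i, x i = c i 0 - (a 0 + b 0) / 2 := ⟨_, fun _ => rfl⟩
  obtain ⟨y, hy⟩ : ∃ y : ι → ℝ, ∀ i, y i = c i 1 - (a 1 + b 1) / 2 := ⟨_, fun _ => rfl⟩
  have k1 : ∀ i ∈ T, ∀ j ∈ T, (x i - x j) ^ 2 + (y i - y j) ^ 2 ≤ D0 ^ 2 → i = j :=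
    fun i hi j hj k => by_contra fun n => (h1 i hi j hj n).not_ge
      (abs_le_of_sq_le_sq' (by rw [match_dist]; simpa [hx, hy] using k) (by linarith)).2
  have k3 : ∀ i ∈ T, x i ^ 2 + y i ^ 2 ≤ τ ^ 2 + (1 - r + D / 2) ^ 2 := fun i hi => by
    have := h3 i hi
    rwa [match_dist, match_mid, match_mid, ← hx, ← hy] at this
  have k2 : ∀ i ∈ T, |x i * (b 0 - a 0) + y i * (b 1 - a 1)| ≤
      τ ^ 2 + (1 - r) ^ 2 + (1 - r) * D - D ^ 2 / 2 := fun i hi => by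
    have l1 := pow_le_pow_left₀ D0' (h2 i hi).1 2
    have l2 := pow_le_pow_left₀ D0' (h2 i hi).2 2
    have l3 := k3 i hi
    rw [match_dist] at l1 l2
    rw [hx, hy] at l3 ⊢
    exact abs_le.2 ⟨by nlinarith, by nlinarith⟩
  refine ⟨fun k => ?_, fun k k' => ?_, fun k => ?_⟩
  · refine (Finset.card_le_card_of_injOn (fun i => (decide (0 ≤ x i), decide (0 ≤ y i)))
      (t := Finset.univ) (fun _ _ => Finset.mem_univ _) fun i hi j hj l => k1 i hi j hj ?_).trans (by simp)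
    have l1 := match_sgn (congrArg Prod.fst l)
    have l2 := match_sgn (congrArg Prod.snd l)
    have l3 : (1 - r + D / 2) ^ 2 ≤ (1 - r + D2 / 2) ^ 2 :=
      pow_le_pow_left₀ (by linarith) (by linarith) 2
    nlinarith [k3 i hi, k3 j hj, hN.q4]
  · have l3 : (1 - r + D / 2) ^ 2 ≤ (1 - r + D1 / 2) ^ 2 :=
      pow_le_pow_left₀ (by linarith) (by linarith) 2
    have l4 : τ ^ 2 + (1 - r) ^ 2 + (1 - r) * D - D ^ 2 / 2 ≤
        D * ((τ ^ 2 + (1 - r) ^ 2) / D2 + (1 - r) - D2 / 2) := by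
      have l5 : τ ^ 2 + (1 - r) ^ 2 ≤ D * ((τ ^ 2 + (1 - r) ^ 2) / D2) := by
        rw [← mul_div_assoc, le_div_iff₀ d2, mul_comm]
        exact mul_le_mul_of_nonneg_right k (by positivity)
      nlinarith
    have l6 : ∀ i ∈ T, (x i * (b 0 - a 0) + y i * (b 1 - a 1)) ^ 2 +
        (y i * (b 0 - a 0) - x i * (b 1 - a 1)) ^ 2 ≤ D ^ 2 * (τ ^ 2 + (1 - r + D1 / 2) ^ 2) :=
      fun i hi => by
      rw [show (x i * (b 0 - a 0) + y i * (b 1 - a 1)) ^ 2 +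
        (y i * (b 0 - a 0) - x i * (b 1 - a 1)) ^ 2 = D ^ 2 * (x i ^ 2 + y i ^ 2) by rw [e]; ring]
      exact mul_le_mul_of_nonneg_left ((k3 i hi).trans (by linarith)) (sq_nonneg D)
    refine (Finset.card_le_card_of_injOn
      (fun i => decide (0 ≤ y i * (b 0 - a 0) - x i * (b 1 - a 1))) (t := Finset.univ)
      (fun _ _ => Finset.mem_univ _) fun i hi j hj l => k1 i hi j hj ?_).trans (by simp)
    exact (match_two (by linarith) ((k2 i hi).trans l4) ((k2 j hj).trans l4) (l6 i hi) (l6 j hj)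
      (match_sgn l) (by rw [e]; ring)).trans hN.q2
  · refine Finset.card_eq_zero.2 (Finset.eq_empty_of_forall_notMem fun i hi => ?_)
    have l1 := (abs_nonneg _).trans (k2 i hi)
    have l2 := hN.q0
    have l3 : 1 - r < D1 / 2 := by
      by_contra l
      nlinarith [sq_nonneg τ, sq_nonneg (1 - r)]
    nlinarith

end Pool.Agent.Lib.MP_fb520c_co
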