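import Pool.Agent.Lib.MP_fb520c_co.Fat.Dowker
import Pool.Agent.Lib.MP_fb520c_co.Fat.Disc

/-! A linear bound for the area of a polygon in a fat body. -/

set_option autoImplicit false

open MeasureTheory Set Real Metric
open scoped ENNReal

noncomputable section

namespace Pool.Agent.Lib.MP_fb520c_co

lemma Sym0.push {C : Set Plane} (hC : Sym0 C) {σ θ : ℝ} (hσ : 0 < σ) (h : pol σ θ ∈ C) :
    ∃ ρ, σ ≤ ρ ∧ Bd C (pol ρ θ) := by
  have hx : pol σ θ ≠ 0 := fun e => by
    have := norm_pol σ θ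
    rw [e, norm_zero, abs_of_pos hσ] at this
    exact hσ.ne this
  have h0 := hC.nhds
  have g0 := hC.g_pos hx
  have g1 := hC.g_le.2 h
  set g := gauge C (pol σ θ) with hg
  have e : pol (σ / g) θ = g⁻¹ • pol σ θ := plane_ext (by simp [pol]; ring) (by simp [pol]; ring)
  have e1 : gauge C (pol (σ / g) θ) = 1 := by
    rw [e, hC.g_smul, abs_of_pos (inv_pos.2 g0), inv_mul_cancel₀ g0.ne']
  have hz : pol (σ / g) θ ∉ interior C := fun k => by
    have := (gauge_lt_one_iff_mem_interior hC.cvx h0).2 k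
    rw [e1] at this
    exact lt_irrefl _ this
  obtain ⟨f, hf⟩ := geometric_hahn_banach_open_point hC.cvx.interior isOpen_interior hz
  have f0 := hf 0 (mem_interior_iff_mem_nhds.2 h0)
  rw [map_zero] at f0
  set c := f (pol (σ / g) θ)
  have ef : ∀ z, fv (pt (f (pt 1 0) / c) (f (pt 0 1) / c)) z = f z / c := fun z => by
    have : z = z 0 • pt 1 0 + z 1 • pt 0 1 := plane_ext (by simp) (by simp)
    conv_rhs => rw [this]
    simp [fv]; ring
  refine ⟨σ / g, (le_div_iff₀ g0).2 (mul_le_of_le_one_right hσ.le g1), hC.g_le.1 e1.le, _,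
    (ef _).trans (div_self f0.ne'), fun w hw => ?_⟩
  rw [ef, div_le_one f0]
  have : w ∈ closure (interior C) := by
    rw [hC.cvx.closure_interior_eq_closure_of_nonempty_interior
      ⟨0, mem_interior_iff_mem_nhds.2 h0⟩]
    exact subset_closure hw
  exact closure_minimal (fun z hz => (hf z hz).le) (isClosed_le f.continuous continuous_const) this

lemma pull_poly (g : Plane ≃ᵢ Plane) (S : Finset (Plane × ℝ)) :
    ∃ S' : Finset (Plane × ℝ), S'.card ≤ S.card ∧ poly S' = g ⁻¹' poly S := by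
  classical
  set L := g.toRealLinearIsometryEquiv
  have e : ∀ v z, fv (L.symm v) z = fv v (g z) - fv v (g 0) := fun v z => by
    have e1 : inner ℝ v (L z) = inner ℝ (L.symm v) z := by
      rw [← L.inner_map_map (L.symm v) z, L.apply_symm_apply]
    rw [inner_eq, inner_eq] at e1
    rw [isometry_apply g z]
    simp only [fv, PiLp.add_apply]
    linear_combination -e1
  refine ⟨S.image fun h => (L.symm h.1, h.2 - fv h.1 (g 0)), Finset.card_image_le, ?_⟩
  ext z
  simp only [poly, mem_preimage, mem_ofPred_eq, Finset.forall_mem_image, e, sub_lt_sub_iff_right]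

lemma slope_cfg {C : Set Plane} {r τ h D0 D1 D2 lo hi e : ℝ} (hC : Fat C r τ h)
    (hN : Num r τ h D0 D1 D2 lo hi e) : ∃ b, lo ≤ b ∧ b ≤ hi ∧ ∀ (n : ℕ) (θ ρ : ℕ → ℝ),
      Cfg n θ ρ → (∀ k < n, Bd C (pol (ρ k) (θ k))) → W n θ ρ / 2 ≤ h + b * ((n : ℝ) - 6) := by
  have hub : ∀ (n : ℕ) (θ ρ : ℕ → ℝ), Cfg n θ ρ → (∀ k < n, Bd C (pol (ρ k) (θ k))) →
      W n θ ρ / 2 ≤ ub n := fun n θ ρ c hb => by
    have k1 : ∀ k < n, ρ k ≤ 1 := fun k hk => by
      have := mem_closedBall_zero_iff.1 (hC.out (hb k hk).1)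
      rw [norm_pol] at this
      exact (le_abs_self _).trans this
    have := c.W_le (ρ := 1) fun k hk => by
      rcases hk.lt_or_eq with l | rfl
      · exact k1 k l
      · rw [c.cρ]
        exact k1 0 (by have := c.three; omega)
    simpa using this
  let B : Set ℝ := insert lo {x | ∃ (n : ℕ) (θ ρ : ℕ → ℝ), Cfg n θ ρ ∧
    (∀ k < n, Bd C (pol (ρ k) (θ k))) ∧ 6 < n ∧ x = (W n θ ρ / 2 - h) / ((n : ℝ) - 6)}
  have pos : ∀ n : ℕ, 6 < n → (0 : ℝ) < n - 6 := fun n hn => sub_pos.2 (by exact_mod_cast hn)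
  have hB : ∀ x ∈ B, x ≤ hi := by
    rintro x (rfl | ⟨n, θ, ρ, c, hb, hn, rfl⟩)
    · exact hN.lohi
    · rw [div_le_iff₀ (pos n hn)]
      linarith [hub n θ ρ c hb, hN.shi n hn]
  have ne : B.Nonempty := ⟨lo, mem_insert _ _⟩
  refine ⟨sSup B, le_csSup ⟨hi, hB⟩ (mem_insert _ _), csSup_le ne hB, fun m θ ρ c hb => ?_⟩
  rcases lt_trichotomy m 6 with l | rfl | l
  · have p : (0 : ℝ) < 6 - m := sub_pos.2 (by exact_mod_cast l)
    have : sSup B ≤ (h - W m θ ρ / 2) / (6 - m) := by
      refine csSup_le ne ?_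
      rintro x (rfl | ⟨n, θ', ρ', c', hb', hn, rfl⟩)
      · rw [le_div_iff₀ p]
        linarith [hub m θ ρ c hb, hN.slo m l]
      · obtain ⟨a, rfl⟩ := Nat.exists_eq_add_of_le hn.le
        obtain ⟨d, hd⟩ := Nat.exists_eq_add_of_le l.le
        have := dowker_in hC.sym hC.hex (ι := Fin a ⊕ Fin d) (Sum.elim (fun _ => m) fun _ => 6 + a)
          (Sum.elim (fun _ => θ) fun _ => θ') (Sum.elim (fun _ => ρ) fun _ => ρ')
          (by rintro (i | i); exacts [c, c']) (by rintro (i | i); exacts [hb, hb'])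
          (by
            simp only [Fintype.sum_sum_type, Sum.elim_inl, Sum.elim_inr, Finset.sum_const,
              Finset.card_univ, Fintype.card_fin, smul_eq_mul, Fintype.card_sum]
            rw [show 6 * (a + d) = (m + d) * a + 6 * d by rw [← hd]; ring]
            ring)
        simp only [Fintype.sum_sum_type, Sum.elim_inl, Sum.elim_inr, Finset.sum_const,
          Finset.card_univ, Fintype.card_fin, nsmul_eq_mul, Fintype.card_sum] at this
        have hd' : (6 : ℝ) - m = d := by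
          have : ((6 : ℕ) : ℝ) = m + d := by rw [hd]; push_cast; ring
          push_cast at this
          linarith
        rw [div_le_div_iff₀ (pos _ hn) p, hd']
        push_cast at this ⊢
        linarith
    rw [le_div_iff₀ p] at this
    linarith
  · have := dowker_in hC.sym hC.hex (ι := Unit) (fun _ => 6) (fun _ => θ) (fun _ => ρ)
      (fun _ => c) (fun _ => hb) (by simp)
    simp only [Finset.univ_unique, Finset.sum_singleton, Fintype.card_unique, Nat.cast_one] at this
    push_cast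
    linarith
  · have := le_csSup ⟨hi, hB⟩ (mem_insert_of_mem _ ⟨m, θ, ρ, c, hb, l, rfl⟩ : _ ∈ B)
    rw [div_le_iff₀ (pos m l)] at this
    linarith

theorem slope {C : Set Plane} {r τ h D0 D1 D2 lo hi e : ℝ} (hC : Fat C r τ h)
    (hN : Num r τ h D0 D1 D2 lo hi e) : ∃ b, lo ≤ b ∧ b ≤ hi ∧
      ∀ (g : Plane ≃ᵢ Plane) (S : Finset (Plane × ℝ)), poly S ⊆ g '' C →
        volume (poly S) ≤ ENNReal.ofReal (h + b * ((S.card : ℝ) - 6)) := by
  obtain ⟨b, h1, h2, h3⟩ := slope_cfg hC hN
  have b0 : 0 ≤ b := hN.lo0.trans h1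
  refine ⟨b, h1, h2, fun g S hS => ?_⟩
  obtain ⟨S', c1, e⟩ := pull_poly g S
  have sub : poly S' ⊆ C := fun z hz => by
    rw [e] at hz
    obtain ⟨w, hw, k⟩ := hS hz
    rwa [← g.injective k]
  have bd : Bornology.IsBounded (poly S') := hC.sym.cpt.isBounded.subset sub
  have up : ∀ n : ℕ, n ≤ S'.card → h + b * ((n : ℝ) - 6) ≤ h + b * ((S.card : ℝ) - 6) :=
    fun n hn => by
      have : (n : ℝ) ≤ S.card := by exact_mod_cast hn.trans c1
      gcongr
  rw [← volume_isometry_preimage g (isOpen_poly S).measurableSet, ← e]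
  rcases (poly S').eq_empty_or_nonempty with k | ne
  · rw [k, measure_empty]
    exact zero_le
  by_cases h0 : (0 : Plane) ∈ poly S'
  · obtain ⟨n, hn, θ, σ, c, hc, hv⟩ := poly0 h0 bd
    have n0 : 0 < n := by have := c.three; omega
    have : ∀ k, k < n → ∃ ρ, σ k ≤ ρ ∧ Bd C (pol ρ (θ k)) := fun k hk =>
      hC.sym.push (c.pos k hk.le) (by
        have := closure_minimal sub hC.sym.cpt.isClosed (hc k hk.le)
        rwa [zero_add] at this)
    choose! R r1 r2 using this
    have le : ∀ k ≤ n, σ k ≤ R (k % n) := fun k hk => by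
      rcases hk.lt_or_eq with l | rfl
      · rw [Nat.mod_eq_of_lt l]
        exact r1 k l
      · rw [Nat.mod_self, c.cρ]
        exact r1 0 n0
    have c' : Cfg n θ fun k => R (k % n) := ⟨fun k hk => (c.pos k hk).trans_le (le k hk), c.lo,
      c.hi, c.mono, c.gap, c.cθ, by simp⟩
    have hW : W n θ σ ≤ W n θ fun k => R (k % n) := Finset.sum_le_sum fun k hk => by
      have hk := Finset.mem_range.1 hk
      refine mul_le_mul_of_nonneg_right (mul_le_mul (le k hk.le) (le _ hk) (c.pos _ hk).le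
        (c'.pos k hk.le).le) (sin_nonneg_of_nonneg_of_le_pi ?_ ?_)
      · linarith [c.mono k hk]
      · linarith [c.gap k hk]
    have := h3 n θ _ c' fun k hk => by
      rw [Nat.mod_eq_of_lt hk]
      exact r2 k hk
    exact hv.trans (ENNReal.ofReal_le_ofReal (by linarith [up n hn]))
  · refine (half_disc zero_le_one (sub.trans hC.out) h0).trans (ENNReal.ofReal_le_ofReal ?_)
    have := up 3 (three_le_card ne bd)
    push_cast at this
    linarith [hN.half]

end Pool.Agent.Lib.MP_fb520c_co
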