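import Pool.Agent.Lib.MP_fb520c_co.Fat.Defs

/-! The support function of a congruent copy of a fat body. -/

set_option autoImplicit false

open MeasureTheory Set Real Metric
open scoped ENNReal

noncomputable section

namespace Pool.Agent.Lib.MP_fb520c_co

lemma supp_dir (z : Plane) : ∃ θ, z = pol ‖z‖ θ := by
  by_cases h0 : z = 0
  · exact ⟨0, by rw [h0]; exact plane_ext (by simp [pol]) (by simp [pol])⟩
  obtain ⟨ρ, u, h1, -, -, h2, h3⟩ := exists_angle (z 0) (z 1) (by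
    by_contra h
    push Not at h
    exact h0 (plane_ext h.1 h.2))
  have e : z = pol ρ u := plane_ext h2 h3
  exact ⟨u, by rw [e, norm_pol, abs_of_pos h1]⟩

lemma supp_sq (z : Plane) (θ : ℝ) : ip z θ ^ 2 + ip z (θ + π / 2) ^ 2 = ‖z‖ ^ 2 := by
  rw [norm_sq_eq]
  simp only [ip, cos_add_pi_div_two, sin_add_pi_div_two]
  linear_combination (z 0 ^ 2 + z 1 ^ 2) * sin_sq_add_cos_sq θ

lemma supp_inner (z : Plane) (θ : ℝ) : ip z θ = inner ℝ (pol 1 θ) z := by
  rw [inner_eq]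
  simp only [ip, pol, pt_zero, pt_one]
  ring

lemma supp_steps {f : ℝ → ℝ} {τ K : ℝ} (hK : 0 ≤ K)
    (h : ∀ s t, |f s - f t| ≤ τ * |s - t| + K * (s - t) ^ 2) (s t : ℝ) :
    |f s - f t| ≤ τ * |s - t| := by
  have a : ∀ (δ : ℝ) (n : ℕ), |f (t + n * δ) - f t| ≤ n * (τ * |δ| + K * δ ^ 2) := fun δ n => by
    induction n with
    | zero => simp
    | succ n ih =>
      have k := h (t + (n + 1 : ℕ) * δ) (t + n * δ)
      rw [show t + (n + 1 : ℕ) * δ - (t + n * δ) = δ by push_cast; ring] at k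
      have := abs_sub_le (f (t + (n + 1 : ℕ) * δ)) (f (t + n * δ)) (f t)
      push_cast at *
      linarith
  refine le_of_forall_pos_le_add fun ε hε => ?_
  obtain ⟨n, hn⟩ := exists_nat_gt (K * (s - t) ^ 2 / ε)
  have n0 : (0 : ℝ) < n := lt_of_le_of_lt (by positivity) hn
  have k := a ((s - t) / n) n
  rw [mul_div_cancel₀ _ n0.ne', add_sub_cancel, abs_div, abs_of_pos n0] at k
  rw [div_lt_iff₀ hε] at hn
  have e : n * (τ * (|s - t| / n) + K * ((s - t) / n) ^ 2) = τ * |s - t| + K * (s - t) ^ 2 / n := by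
    field_simp
  have e2 : K * (s - t) ^ 2 / n ≤ ε := by
    rw [div_le_iff₀ n0]
    linarith
  linarith

lemma hasSupp_ball (a : Plane) (ρ : ℝ) : HasSupp (ball a ρ) a (fun _ => ρ) := by
  refine ⟨fun z => ?_, fun _ => rfl⟩
  rw [mem_ball, dist_eq_norm]
  refine ⟨fun h θ => (le_abs_self _).trans_lt ((abs_ip_le _ θ).trans_lt h), fun h => ?_⟩
  obtain ⟨θ, e⟩ := supp_dir (z - a)
  have k := h θ
  rw [e, ip_pol, sub_self, cos_zero, mul_one] at k
  exact k

lemma supp_lip {C : Set Plane} (hC : IsCompact C) (hne : C.Nonempty) {R τ : ℝ}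
    (hR : ∀ z ∈ C, ‖z‖ ≤ R)
    (ht : ∀ z ∈ C, ∀ θ, (∀ w ∈ C, ip w θ ≤ ip z θ) → |ip z (θ + π / 2)| ≤ τ) (s t : ℝ) :
    |supp C s - supp C t| ≤ τ * |s - t| := by
  have hR0 : 0 ≤ R := hne.elim fun z hz => (norm_nonneg z).trans (hR z hz)
  have a : ∀ s t, supp C s - supp C t ≤ τ * |s - t| + R / 2 * (s - t) ^ 2 := fun s t => by
    obtain ⟨z, hz, e⟩ := exists_supp hC hne s
    have h1 := ht z hz s fun w hw => e ▸ le_supp hC hw s
    have h2 := le_supp hC hz t
    rw [ip_rot z s t] at h2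
    have h3 : ip z s ≤ R := (le_abs_self _).trans ((abs_ip_le z s).trans (hR z hz))
    have h4 : |ip z (s + π / 2) * sin (t - s)| ≤ τ * |s - t| := by
      rw [abs_mul, abs_sub_comm s t]
      exact mul_le_mul h1 abs_sin_le_abs (abs_nonneg _) ((abs_nonneg _).trans h1)
    have h5 := mul_le_mul_of_nonneg_right h3 (sub_nonneg.2 (cos_le_one (t - s)))
    have h6 := mul_le_mul_of_nonneg_left (one_sub_sq_div_two_le_cos (x := t - s)) hR0
    have h7 := neg_abs_le (ip z (s + π / 2) * sin (t - s))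
    rw [← e]
    nlinarith
  refine supp_steps (K := R / 2) (by positivity) (fun s t => abs_le.2 ⟨?_, a s t⟩) s t
  have := a t s
  rw [abs_sub_comm t s, show (t - s) ^ 2 = (s - t) ^ 2 by ring] at this
  linarith

lemma Sym0.hasSupp {C : Set Plane} (hC : Sym0 C) : HasSupp (interior C) 0 (supp C) := by
  refine ⟨fun z => ?_, fun θ => by simp only [supp, ip, cos_add_two_pi, sin_add_two_pi]⟩
  rw [sub_zero]
  refine ⟨fun h θ => lt_of_mem_interior (fun w hw => le_supp hC.cpt hw θ) h, fun h => ?_⟩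
  by_contra hz
  obtain ⟨ε, hε, h'⟩ := hC.int
  obtain ⟨f, f0, hf⟩ := geometric_hahn_banach_of_nonempty_interior_point hC.cvx hz
    ⟨0, mem_interior_iff_mem_nhds.2 (Filter.mem_of_superset (closedBall_mem_nhds _ hε) h')⟩
  obtain ⟨v, rfl⟩ := (InnerProductSpace.toDual ℝ Plane).surjective f
  have v0 : 0 < ‖v‖ := norm_pos_iff.2 fun e => f0 (by rw [e, map_zero])
  obtain ⟨θ, e⟩ := supp_dir v
  have k : ∀ w : Plane, InnerProductSpace.toDual ℝ Plane v w = ‖v‖ * ip w θ := fun w => by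
    rw [InnerProductSpace.toDual_apply_apply, inner_eq]
    conv_lhs => rw [e]
    simp only [ip, pol, pt_zero, pt_one]
    ring
  obtain ⟨y, hy, e'⟩ := exists_supp hC.cpt hC.ne θ
  have k2 := hf y hy
  rw [k, k, e'] at k2
  exact (le_of_mul_le_mul_left k2 v0).not_gt (h θ)

theorem Fat.hasSupp {C : Set Plane} {r τ h : ℝ} (hC : Fat C r τ h) (g : Plane ≃ᵢ Plane) :
    ∃ p, HasSupp (interior (g '' C)) (g 0) p ∧ (∀ θ, r ≤ p θ ∧ p θ ≤ 1) ∧
      ∀ s t, |p s - p t| ≤ τ * |s - t| := by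
  set L := g.toRealLinearIsometryEquiv with hL
  have hS : Sym0 (L '' C) := by
    refine ⟨hC.sym.cpt.image L.continuous, hC.sym.cvx.linear_image L.toLinearEquiv.toLinearMap,
      ?_, ?_⟩
    · rintro _ ⟨y, hy, rfl⟩
      exact ⟨-y, hC.sym.sym y hy, map_neg L y⟩
    · obtain ⟨ε, hε, h'⟩ := hC.sym.int
      exact ⟨ε, hε, fun z hz => ⟨L.symm z, h' (by simpa using hz), L.apply_symm_apply z⟩⟩
  have hn : ∀ z ∈ L '' C, ‖z‖ ≤ 1 := by
    rintro _ ⟨y, hy, rfl⟩
    simpa using hC.out hy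
  refine ⟨supp (L '' C), ⟨fun z => ?_, hS.hasSupp.per⟩, fun θ => ⟨?_, ?_⟩,
    supp_lip hS.cpt hS.ne hn ?_⟩
  · have e1 : interior (g '' C) = g '' interior C := (g.toHomeomorph.image_interior C).symm
    have e2 : interior (L '' C) = L '' interior C := (L.toHomeomorph.image_interior C).symm
    have e3 := hS.hasSupp.mem (z - g 0)
    rw [sub_zero] at e3
    rw [← e3, e1, e2]
    exact exists_congr fun y => and_congr_right' (by rw [isometry_apply g y, eq_sub_iff_add_eq])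
  · rcases le_total r 0 with h0 | h0
    · exact h0.trans (hS.isSupp.pos θ).le
    · have k := le_supp hS.cpt (z := pol r θ) ⟨L.symm (pol r θ), hC.inn (by
        simp [norm_pol, abs_of_nonneg h0]), L.apply_symm_apply _⟩ θ
      rwa [ip_pol, sub_self, cos_zero, mul_one] at k
  · obtain ⟨z, hz, e⟩ := exists_supp hS.cpt hS.ne θ
    exact e ▸ (le_abs_self _).trans ((abs_ip_le z θ).trans (hn z hz))
  · rintro _ ⟨y, hy, rfl⟩ θ h1
    obtain ⟨u, e⟩ := supp_dir (L.symm (pol 1 θ))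
    rw [L.symm.norm_map, norm_pol, abs_one] at e
    have k : ∀ w, ip (L w) θ = ip w u := fun w => by
      rw [supp_inner, supp_inner, ← e, ← L.inner_map_map (L.symm _) w, L.apply_symm_apply]
    have k1 := hC.tan y hy u fun w hw => by
      rw [← k, ← k]
      exact h1 _ ⟨w, hw, rfl⟩
    have k2 := supp_sq (L y) θ
    rw [L.norm_map, ← supp_sq y u, k, add_right_inj, sq_eq_sq_iff_abs_eq_abs] at k2
    rwa [k2]

/-- the tangential bound that follows from fatness alone -/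
theorem Fat.of_balls {C : Set Plane} {r τ h : ℝ} (hC : Sym0 C) (hr : 0 ≤ r) (hτ0 : 0 ≤ τ)
    (hτ : 1 - r ^ 2 ≤ τ ^ 2) (h1 : closedBall (0 : Plane) r ⊆ C)
    (h2 : C ⊆ closedBall (0 : Plane) 1)
    (h3 : ∀ u ∈ C, ∀ v ∈ C, ∀ t ∈ C, hform u v t ≤ h) : Fat C r τ h := by
  refine ⟨hC, h1, h2, fun z hz θ k => abs_le_of_sq_le_sq' ?_ hτ0 |> abs_le.2, h3⟩
  have k1 := k (pol r θ) (h1 (by simp [norm_pol, abs_of_nonneg hr]))
  rw [ip_pol, sub_self, cos_zero, mul_one] at k1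
  have k2 : ‖z‖ ≤ 1 := by simpa using h2 hz
  have k3 := supp_sq z θ
  nlinarith [norm_nonneg z]

end Pool.Agent.Lib.MP_fb520c_co
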