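import Pool.Agent.Lib.MP_fb520c_co.Fat.Cells
import Pool.Agent.Lib.MP_fb520c_co.Fat.Alt
import Pool.Agent.Lib.MP_fb520c_co.Fat.Supp
import Pool.Agent.Lib.MP_fb520c_co.Fat.Slope
import Pool.Agent.Lib.MP_fb520c_co.Fat.Match

/-! The covering theorem in a square. -/

set_option autoImplicit false

open MeasureTheory Set Real Metric
open scoped ENNReal

noncomputable section

namespace Pool.Agent.Lib.MP_fb520c_co

lemma DiscOK.le {lo hi ρ c b ρ' c' : ℝ} (h : DiscOK lo hi ρ c) (h1 : lo ≤ b) (h2 : b ≤ hi)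
    (h3 : 0 ≤ ρ') (h4 : ρ' ≤ ρ) (h5 : c ≤ c') (n : ℕ) :
    ρ' ^ 2 * ub n ≤ c' + b * ((n : ℝ) - 6) := by
  have k1 : ρ' ^ 2 * ub n ≤ ρ ^ 2 * ub n :=
    mul_le_mul_of_nonneg_right (pow_le_pow_left₀ h3 h4 2) (ub_nonneg n)
  rcases le_total ((n : ℝ) - 6) 0 with k | k
  · nlinarith [(h n).2]
  · nlinarith [(h n).1]

lemma loc_nc_disc {C : Set Plane} {r τ h : ℝ} (hC : Fat C r τ h) (g : Plane ≃ᵢ Plane) (a : Plane)
    {ρ : ℝ} (hρ : 1 ≤ ρ) (hd : τ ^ 2 + (ρ - r) ^ 2 < dist (g 0) a ^ 2) :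
    ¬Cross (interior (g '' C)) (interior (closedBall a ρ)) := by
  obtain ⟨p, h1, h2, h3⟩ := hC.hasSupp g
  rw [interior_closedBall a (by linarith)]
  refine nc h1 (hasSupp_ball a ρ) (κ := ρ - r) (τ := τ) (fun θ => ?_) (fun s t => ?_) (by linarith)
  · rw [abs_le]; constructor <;> linarith [(h2 θ).1, (h2 θ).2]
  · simpa using h3 s t

lemma loc_nc_fat {C : Set Plane} {r τ h : ℝ} (hC : Fat C r τ h) (g g' : Plane ≃ᵢ Plane)
    (hd : (1 - r) ^ 2 + (2 * τ) ^ 2 < dist (g 0) (g' 0) ^ 2) :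
    ¬Cross (interior (g '' C)) (interior (g' '' C)) := by
  obtain ⟨p, h1, h2, h3⟩ := hC.hasSupp g
  obtain ⟨q, k1, k2, k3⟩ := hC.hasSupp g'
  refine nc h1 k1 (κ := 1 - r) (τ := 2 * τ) (fun θ => ?_) (fun s t => ?_) hd
  · rw [abs_le]; constructor <;> linarith [(h2 θ).1, (h2 θ).2, (k2 θ).1, (k2 θ).2]
  · have e1 := abs_le.1 (h3 s t)
    have e2 := abs_le.1 (k3 s t)
    rw [abs_le]; constructor <;> linarith [e1.1, e1.2, e2.1, e2.2]

lemma loc_nc_ball (a b : Plane) {ρ σ : ℝ} (hρ : 1 ≤ ρ) (hσ : 1 ≤ σ) :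
    ¬Cross (interior (closedBall a ρ)) (interior (closedBall b σ)) := by
  rw [interior_closedBall a (by linarith), interior_closedBall b (by linarith)]
  exact nc_ball a b (by linarith) (by linarith)

theorem Fat.loc {C : Set Plane} {r τ h D0 D1 D2 lo hi e : ℝ} (hC : Fat C r τ h)
    (hN : Num r τ h D0 D1 D2 lo hi e) (ι : Type) [Fintype ι] (g : ι → Plane ≃ᵢ Plane) (o : Plane)
    (L : ℝ) (hL : 0 < L) (hcov : ∀ z ∈ sq o L, ∃ i, z ∈ g i '' C) :
    4 * L ^ 2 ≤ Fintype.card ι * h + 12 * hi := by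
  classical
  let c : ι → Plane := fun i => g i 0
  obtain ⟨U, P, hcard, hall, hP, hU, hUP⟩ := matching c D0 Finset.univ
  obtain ⟨b, hb1, hb2, hb⟩ := slope hC hN
  have hb0 : 0 ≤ b := hN.lo0.trans hb1
  have hD0 : 0 < D0 := hN.d2.trans_le (hN.d21.trans hN.d10)
  have hh0 : 0 ≤ h := by linarith [hN.six]
  let m : ι × ι → Plane := fun p => midpoint ℝ (c p.1) (c p.2)
  let d : ι × ι → ℝ := fun p => dist (c p.1) (c p.2)
  have hd0 : ∀ p, 0 ≤ d p := fun p => dist_nonneg
  let T : ι × ι → Finset ι := fun p =>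
    U.filter fun i => dist (c i) (m p) ^ 2 ≤ τ ^ 2 + (1 - r + d p / 2) ^ 2
  let Sp : Finset ι := P.biUnion T
  let K : U ⊕ P → Set Plane := Sum.elim
    (fun i => if i.1 ∈ Sp then closedBall (c i) 1 else g i '' C)
    (fun p => closedBall (m p) (1 + d p / 2))
  let a : U ⊕ P → ℝ := Sum.elim (fun i => h + if i.1 ∈ Sp then e else 0)
    (fun p => 2 * h - (T p).card * e)
  have hsub : ∀ i, g i '' C ⊆ closedBall (c i) 1 := fun i => by
    rw [← (g i).image_closedBall]; exact image_mono hC.out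
  have hfar : ∀ i ∈ U, ∀ j ∈ U, i ≠ j → (1 - r) ^ 2 + (2 * τ) ^ 2 < dist (c i) (c j) ^ 2 :=
    fun i hi j hj hij => hN.far.trans_lt (pow_lt_pow_left₀ (hU i hi j hj hij) hD0.le two_ne_zero)
  have hK : ∀ k, IsCompact (K k) ∧ Convex ℝ (K k) := by
    rintro (i | p)
    · simp only [K, Sum.elim_inl]
      split_ifs
      · exact ⟨isCompact_closedBall _ _, convex_closedBall _ _⟩
      · exact ⟨hC.sym.cpt.image (g i).continuous, convex_isometry_image _ hC.sym.cvx⟩
    · exact ⟨isCompact_closedBall _ _, convex_closedBall _ _⟩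
  have hX1 : ∀ (i : U) (p : P), ¬Cross (interior (K (.inl i))) (interior (K (.inr p))) := by
    intro i p
    simp only [K, Sum.elim_inl, Sum.elim_inr]
    split_ifs with hs
    · exact loc_nc_ball _ _ le_rfl (by linarith [hd0 p])
    · refine loc_nc_disc hC _ _ (by linarith [hd0 p]) (lt_of_not_ge fun k => hs ?_)
      refine Finset.mem_biUnion.2 ⟨p.1, p.2, Finset.mem_filter.2 ⟨i.2, ?_⟩⟩
      rwa [show 1 - r + d p / 2 = 1 + d p / 2 - r by ring]
  have hX : ∀ k l, k ≠ l → ¬Cross (interior (K k)) (interior (K l)) := by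
    rintro (i | p) (j | q) hkl
    · have hij : i.1 ≠ j.1 := fun e => hkl (by rw [Subtype.ext e])
      have h1 := hfar i i.2 j j.2 hij
      simp only [K, Sum.elim_inl]
      split_ifs
      · exact loc_nc_ball _ _ le_rfl le_rfl
      · refine fun k => loc_nc_disc hC _ _ le_rfl ?_ k.symm
        rw [dist_comm]
        nlinarith [sq_nonneg τ]
      · exact loc_nc_disc hC _ _ le_rfl (by nlinarith [sq_nonneg τ])
      · exact loc_nc_fat hC _ _ h1
    · exact hX1 i q
    · exact fun k => hX1 j p k.symm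
    · exact loc_nc_ball _ _ (by linarith [hd0 p]) (by linarith [hd0 q])
  have hcov' : ∀ z ∈ sq o L, ∃ k, z ∈ K k := by
    intro z hz
    obtain ⟨i, hi⟩ := hcov z hz
    rcases hall i (Finset.mem_univ _) with k | ⟨p, hp, k⟩
    · refine ⟨.inl ⟨i, k⟩, ?_⟩
      simp only [K, Sum.elim_inl]
      split_ifs
      · exact hsub i hi
      · exact hi
    · refine ⟨.inr ⟨p, hp⟩, ?_⟩
      have k1 : dist z (c i) ≤ 1 := hsub i hi
      have k2 : dist (c i) (m p) = d p / 2 := by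
        rcases k with k | k <;> rw [k] <;> simp only [m, d]
        · rw [dist_left_midpoint]; norm_num; ring
        · rw [dist_right_midpoint]; norm_num; ring
      show dist z (m p) ≤ 1 + d p / 2
      linarith [dist_triangle z (c i) (m p)]
  obtain ⟨S, hS1, hS2, hS3⟩ := cells K hK hX o hL hcov'
  have hdisc : ∀ k (x : Plane) (ρ : ℝ), 0 ≤ ρ → K k = closedBall x ρ →
      ρ ^ 2 * ub (S k).card ≤ a k + b * (((S k).card : ℝ) - 6) →
      0 ≤ a k + b * (((S k).card : ℝ) - 6) ∧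
        volume (poly (S k)) ≤ ENNReal.ofReal (a k + b * (((S k).card : ℝ) - 6)) :=
    fun k x ρ h1 h2 h3 => ⟨(mul_nonneg (sq_nonneg _) (ub_nonneg _)).trans h3,
      (poly_disc h1 (h2 ▸ hS1 k)).trans (ENNReal.ofReal_le_ofReal h3)⟩
  have harea : ∀ k, 0 ≤ a k + b * (((S k).card : ℝ) - 6) ∧
      volume (poly (S k)) ≤ ENNReal.ofReal (a k + b * (((S k).card : ℝ) - 6)) := by
    rintro (i | p)
    · by_cases hs : i.1 ∈ Sp
      · refine hdisc _ (c i) 1 zero_le_one (by simp only [K, Sum.elim_inl, if_pos hs]) ?_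
        exact hN.one.le hb1 hb2 zero_le_one le_rfl (by simp only [a, Sum.elim_inl, if_pos hs, le_refl]) _
      · have k := hS1 (.inl i)
        simp only [K, Sum.elim_inl, if_neg hs] at k
        simp only [a, Sum.elim_inl, if_neg hs, add_zero]
        refine ⟨?_, hb _ _ k⟩
        have : (0 : ℝ) ≤ (S (.inl i)).card := Nat.cast_nonneg _
        nlinarith [hN.six]
    · refine hdisc _ (m p) (1 + d p / 2) (by linarith [hd0 p]) rfl ?_
      obtain ⟨c1, c2, c3⟩ := count hN c (T p) (c p.1.1) (c p.1.2)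
        (fun i hi j hj => hU i (Finset.mem_filter.1 hi).1 j (Finset.mem_filter.1 hj).1)
        (fun i hi => hUP p p.2 i (Finset.mem_filter.1 hi).1) (fun i hi => (Finset.mem_filter.1 hi).2)
      have h0 : 0 ≤ 1 + d p / 2 := by linarith [hd0 p]
      simp only [a, Sum.elim_inr]
      rcases le_total (d p) D2 with k | k
      · have : ((T p).card : ℝ) ≤ 4 := by exact_mod_cast c1 k
        exact hN.p2.le hb1 hb2 h0 (by linarith) (by nlinarith [hN.e0]) _
      rcases le_total (d p) D1 with k' | k'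
      · have : ((T p).card : ℝ) ≤ 2 := by exact_mod_cast c2 k k'
        exact hN.p1.le hb1 hb2 h0 (by linarith) (by nlinarith [hN.e0]) _
      · have k'' : d p ≤ D0 := hP p p.2
        exact hN.p0.le hb1 hb2 h0 (by linarith) (by rw [c3 k']; simp) _
  have hsum := hS3.trans (Finset.sum_le_sum fun k _ => (harea k).2)
  rw [← ENNReal.ofReal_sum_of_nonneg (fun k _ => (harea k).1),
    ENNReal.ofReal_le_ofReal_iff (Finset.sum_nonneg fun k _ => (harea k).1),
    Finset.sum_add_distrib, ← Finset.mul_sum, Finset.sum_sub_distrib, Finset.sum_const,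
    Finset.card_univ, nsmul_eq_mul, ← Nat.cast_sum] at hsum
  have e1 : ((∑ k, (S k).card : ℕ) : ℝ) ≤ 6 * (Fintype.card (U ⊕ P) + 2) := by exact_mod_cast hS2
  have e2 : ∑ k, a k ≤ Fintype.card ι * h := by
    have k1 : ∑ i : U, (if i.1 ∈ Sp then e else 0) ≤ Sp.card * e := by
      rw [Finset.sum_coe_sort U (fun i => if i ∈ Sp then e else 0), ← Finset.sum_filter,
        Finset.sum_const, nsmul_eq_mul]
      refine mul_le_mul_of_nonneg_right (Nat.cast_le.2 (Finset.card_le_card fun i hi => ?_)) hN.e0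
      exact (Finset.mem_filter.1 hi).2
    have k2 : (Sp.card : ℝ) ≤ ∑ p : P, ((T p).card : ℝ) := by
      rw [Finset.sum_coe_sort P (fun p => ((T p).card : ℝ))]
      exact_mod_cast Finset.card_biUnion_le
    have k3 : (U.card : ℝ) + 2 * P.card ≤ Fintype.card ι := by exact_mod_cast hcard
    rw [Fintype.sum_sum_type]
    simp only [a, Sum.elim_inl, Sum.elim_inr]
    rw [Finset.sum_add_distrib, Finset.sum_sub_distrib, ← Finset.sum_mul _ _ e]
    simp only [Finset.sum_const, Finset.card_univ, Fintype.card_coe, nsmul_eq_mul]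
    nlinarith [mul_le_mul_of_nonneg_right k2 hN.e0, mul_le_mul_of_nonneg_right k3 hh0]
  nlinarith [mul_le_mul_of_nonneg_left e1 hb0]

end Pool.Agent.Lib.MP_fb520c_co
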