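import Pool.Agent.Lib.MP_fb520c_co.Fat.Local
import Pool.Agent.Lib.MP_fb520c_co.Fat.Dens

/-! The covering density of a fat symmetric body. -/

set_option autoImplicit false

open MeasureTheory Set Real Metric
open scoped ENNReal

noncomputable section

namespace Pool.Agent.Lib.MP_fb520c_co

theorem Fat.le_cd {C : Set Plane} {r τ h D0 D1 D2 lo hi e : ℝ} (hC : Fat C r τ h)
    (hN : Num r τ h D0 D1 D2 lo hi e) : ENNReal.ofReal ((volume C).toReal / h) ≤ cd C := by
  have hh : 0 < h := by
    have h1 := hN.half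
    have h2 := hN.lo0
    have h3 := hN.lohi
    have h4 : (0 : ℝ) < ub 3 := by norm_num [ub]
    linarith
  exact le_iInf₂ fun _ k => dens hC.sym.cpt hC.sym.volume_ne one_pos
    (fun z hz => mem_closedBall_zero_iff.1 (hC.out hz)) hh (hC.loc hN) k.1 k.2

end Pool.Agent.Lib.MP_fb520c_co
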