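import Pool.Agent.Lib.MP_fb520c_co.Fat.Defs

/-! Two bounded open convex sets that do not cross are split by a line. -/

set_option autoImplicit false

open MeasureTheory Set Real Metric
open scoped ENNReal

noncomputable section

namespace Pool.Agent.Lib.MP_fb520c_co

/-- a point of the line through the ends of a segment -/
lemma line_cases {x1 x2 y : Plane} (hy : y ∈ segment ℝ x1 x2) (t : ℝ) :
    x1 + t • (x2 - x1) ∈ segment ℝ x1 x2 ∨ x1 ∈ segment ℝ y (x1 + t • (x2 - x1)) ∨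
      x2 ∈ segment ℝ y (x1 + t • (x2 - x1)) := by
  rw [segment_eq_image'] at hy
  obtain ⟨s, ⟨h0, h1⟩, rfl⟩ := hy
  simp only [segment_eq_image']
  rcases lt_or_ge t 0 with h | h
  · have k : 0 < s - t := by linarith
    refine .inr (.inl ⟨s / (s - t), ⟨by positivity, (div_le_one k).2 (by linarith)⟩, ?_⟩)
    refine plane_ext ?_ ?_ <;> simp <;> field_simp <;> ring
  rcases le_or_gt t 1 with h' | h'
  · exact .inl ⟨t, ⟨h, h'⟩, rfl⟩
  · have k : 0 < t - s := by linarith
    refine .inr (.inr ⟨(1 - s) / (t - s), ⟨div_nonneg (by linarith) k.le,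
      (div_le_one k).2 (by linarith)⟩, ?_⟩)
    refine plane_ext ?_ ?_ <;> simp <;> field_simp <;> ring

lemma sep_comb {a b s t : ℝ} (hs : 0 ≤ s) (ht : 0 ≤ t) (h : s + t = 1) (ha : a < 0) (hb : b < 0) :
    s * a + t * b < 0 := by
  obtain rfl : t = 1 - s := by linarith
  rcases le_total a b with k | k <;> nlinarith

lemma sep_ray {P : Set Plane} {ψ φ : Plane → ℝ}
    (hψ : ∀ (a b : Plane) (s t : ℝ), s + t = 1 → ψ (s • a + t • b) = s * ψ a + t * ψ b)
    (hφ : ∀ (a b : Plane) (s t : ℝ), s + t = 1 → φ (s • a + t • b) = s * φ a + t * φ b)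
    {y : Plane} (hy : y ∈ convexHull ℝ P) (h1 : ψ y = 0) (h2 : φ y = 0) :
    ∃ p ∈ P, ∃ p' ∈ P, ∃ z ∈ segment ℝ p p', ψ z = 0 ∧ 0 ≤ φ z := by
  by_contra! H
  let C : Set Plane := {w | 0 ≤ ψ w ∧ (ψ w = 0 → φ w < 0) ∧
    ∀ q ∈ P, ψ q < 0 → ψ w * φ q - ψ q * φ w < 0}
  let D : Set Plane := {w | ψ w < 0 ∧ ∀ p ∈ C, ψ p * φ w - ψ w * φ p < 0}
  have hC : Convex ℝ C := by
    rintro a ⟨a1, a2, a3⟩ b ⟨b1, b2, b3⟩ s t hs ht h
    refine ⟨by rw [hψ _ _ _ _ h]; positivity, ?_, fun q hq k => ?_⟩ <;>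
      rw [hψ _ _ _ _ h, hφ _ _ _ _ h]
    · intro k
      have k1 := mul_nonneg hs a1
      have k2 := mul_nonneg ht b1
      rcases hs.eq_or_lt with rfl | hs'
      · obtain rfl : t = 1 := by linarith
        linarith [b2 (by linarith)]
      rcases ht.eq_or_lt with rfl | ht'
      · obtain rfl : s = 1 := by linarith
        linarith [a2 (by linarith)]
      exact sep_comb hs ht h (a2 ((mul_eq_zero.1 (by linarith : s * ψ a = 0)).resolve_left hs'.ne'))
        (b2 ((mul_eq_zero.1 (by linarith : t * ψ b = 0)).resolve_left ht'.ne'))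
    · linarith [sep_comb hs ht h (a3 q hq k) (b3 q hq k)]
  have hD : Convex ℝ D := by
    rintro a ⟨a1, a2⟩ b ⟨b1, b2⟩ s t hs ht h
    refine ⟨by rw [hψ _ _ _ _ h]; exact sep_comb hs ht h a1 b1, fun p hp => ?_⟩
    rw [hψ _ _ _ _ h, hφ _ _ _ _ h]
    linarith [sep_comb hs ht h (a2 p hp) (b2 p hp)]
  have hP : P ⊆ C ∪ D := fun p hp => by
    rcases lt_or_ge (ψ p) 0 with k | k
    · exact .inr ⟨k, fun w hw => hw.2.2 p hp k⟩
    refine .inl ⟨k, H p hp p hp p (left_mem_segment _ _ _), fun q hq k' => ?_⟩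
    have e : 0 < ψ p - ψ q := by linarith
    have e' : -ψ q / (ψ p - ψ q) + ψ p / (ψ p - ψ q) = 1 := by field_simp; ring
    have := H p hp q hq _ ⟨_, _, div_nonneg (by linarith) e.le, div_nonneg k e.le, e', rfl⟩
      (by rw [hψ _ _ _ _ e']; field_simp; ring)
    rw [hφ _ _ _ _ e', div_mul_eq_mul_div, div_mul_eq_mul_div, ← add_div, div_lt_iff₀ e] at this
    linarith
  replace hy := convexHull_mono hP hy
  rcases C.eq_empty_or_nonempty with c | c
  · rw [c, empty_union, hD.convexHull_eq] at hy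
    exact hy.1.ne h1
  rcases D.eq_empty_or_nonempty with d | d
  · rw [d, union_empty, hC.convexHull_eq] at hy
    exact (hy.2.1 h1).ne h2
  rw [hC.convexHull_union hD c d, mem_convexJoin] at hy
  obtain ⟨a, ha, b, hb, s, t, hs, ht, h, rfl⟩ := hy
  rw [hψ _ _ _ _ h] at h1
  rw [hφ _ _ _ _ h] at h2
  refine (hb.2 a ha).ne ?_
  linear_combination (φ b - φ a) * h1 + (ψ a - ψ b) * h2 - (ψ a * φ b - ψ b * φ a) * h

/-- a segment from a point of the hull of `P` to a point outside a convex set containing `P` meets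
a segment between two points of `P` -/
lemma exit_hull {P A : Set Plane} (hA : Convex ℝ A) (hP : P ⊆ A) {y x : Plane}
    (hy : y ∈ convexHull ℝ P) (hx : x ∉ A) :
    ∃ p ∈ P, ∃ p' ∈ P, ∃ z, z ∈ segment ℝ y x ∧ z ∈ segment ℝ p p' := by
  have hyA : y ∈ A := convexHull_min hP hA hy
  obtain ⟨p, hp, p', hp', z, hz, h1, h2⟩ := sep_ray (ψ := fun w => dt (x - y) (w - y))
    (φ := fun w => fv (x - y) (w - y))
    (fun a b s t h => by obtain rfl : t = 1 - s := by linarith
                         simp [dt]; ring)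
    (fun a b s t h => by obtain rfl : t = 1 - s := by linarith
                         simp [fv]; ring) hy (by simp [dt]) (by simp [fv])
  refine ⟨p, hp, p', hp', z, ?_, hz⟩
  have hzA : z ∈ A := hA.segment_subset (hP hp) (hP hp') hz
  have e : 0 < fv (x - y) (x - y) := by
    by_contra! k
    simp only [fv, PiLp.sub_apply] at k
    obtain ⟨k1, k2⟩ := mul_self_add_mul_self_eq_zero.1
      (k.antisymm (add_nonneg (mul_self_nonneg _) (mul_self_nonneg _)))
    obtain rfl : x = y := plane_ext (sub_eq_zero.1 k1) (sub_eq_zero.1 k2)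
    exact hx hyA
  obtain ⟨t, ht, rfl⟩ : ∃ t : ℝ, 0 ≤ t ∧ z = y + t • (x - y) := by
    refine ⟨_, div_nonneg h2 e.le, ?_⟩
    simp only [fv, dt, PiLp.sub_apply] at e h1 ⊢
    refine plane_ext ?_ ?_ <;> simp only [PiLp.add_apply, PiLp.smul_apply, PiLp.sub_apply,
      smul_eq_mul] <;> rw [← sub_eq_iff_eq_add', div_mul_eq_mul_div, eq_div_iff e.ne']
    · linear_combination (y 1 - x 1) * h1
    · linear_combination (x 0 - y 0) * h1
  rcases le_or_gt t 1 with h | h
  · rw [segment_eq_image']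
    exact ⟨t, ⟨ht, h⟩, rfl⟩
  · refine (hx (hA.segment_subset hyA hzA ?_)).elim
    have k : 0 < t := by linarith
    rw [segment_eq_image']
    refine ⟨t⁻¹, ⟨by positivity, inv_le_one_of_one_le₀ h.le⟩, ?_⟩
    simp [smul_smul, inv_mul_cancel₀ k.ne']

lemma sep_sub {B U : Set Plane} (hB : IsOpen B) (hB' : Convex ℝ B) (hU : IsOpen U)
    (h : U ⊆ closure B) : U ⊆ B := by
  rcases B.eq_empty_or_nonempty with rfl | k
  · simpa using h
  · have := interior_maximal h hU
    rwa [hB'.interior_closure_eq_interior_of_nonempty_interior (by rwa [hB.interior_eq]),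
      hB.interior_eq] at this

theorem sep {A B : Set Plane} (hA : IsOpen A) (hA' : Convex ℝ A) (hAb : Bornology.IsBounded A)
    (hB : IsOpen B) (hB' : Convex ℝ B) (hBb : Bornology.IsBounded B) (h : ¬Cross A B) :
    ∃ (v : Plane) (c : ℝ), v ≠ 0 ∧ (∀ z ∈ A, c < fv v z → z ∈ B) ∧
      ∀ z ∈ B, fv v z < c → z ∈ A := by
  have h0 : pt 1 0 ≠ 0 := fun e => by simpa using congrArg (fun z : Plane => z 0) e
  rcases (A \ closure B).eq_empty_or_nonempty with hp | ⟨p0, hp⟩
  · obtain ⟨c, hc⟩ := hBb.isCompact_closure.bddBelow_image (continuous_fv (pt 1 0)).continuousOn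
    exact ⟨pt 1 0, c, h0, fun z hz _ => sep_sub hB hB' hA (sdiff_eq_empty.1 hp) hz,
      fun z hz k => (k.not_ge (hc ⟨z, subset_closure hz, rfl⟩)).elim⟩
  rcases (B \ closure A).eq_empty_or_nonempty with hq | ⟨q, hq⟩
  · obtain ⟨c, hc⟩ := hAb.isCompact_closure.bddAbove_image (continuous_fv (pt 1 0)).continuousOn
    exact ⟨pt 1 0, c, h0, fun z hz k => (k.not_ge (hc ⟨z, subset_closure hz, rfl⟩)).elim,
      fun z hz _ => sep_sub hA hA' hB (sdiff_eq_empty.1 hq) hz⟩
  have s1 : A \ closure B ⊆ A \ B := sdiff_subset_sdiff_right subset_closure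
  have s2 : B \ closure A ⊆ B \ A := sdiff_subset_sdiff_right subset_closure
  obtain ⟨v, c, h1, h2⟩ := exists_sep (convex_convexHull ℝ (A \ closure B))
    (hA.sdiff isClosed_closure).convexHull (convex_convexHull ℝ (B \ closure A))
    (hB.sdiff isClosed_closure).convexHull (disjoint_left.2 fun y y1 y2 => by
      obtain ⟨p, k1, p', k2, z, k3, k4⟩ := exit_hull hA' sdiff_subset y1 (s2 hq).2
      obtain ⟨r, k5, r', k6, w, k7, k8⟩ := exit_hull hB' sdiff_subset
        ((convex_convexHull ℝ _).segment_subset y2 (subset_convexHull ℝ _ hq) k3) (s1 k1).2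
      exact h ⟨p, s1 k1, p', s1 k2, r, s2 k5, r', s2 k6, w,
        (convex_segment p p').segment_subset k4 (left_mem_segment _ _ _) k7, k8⟩)
  refine ⟨v, c, ?_, fun z hz k => ?_, fun z hz k => ?_⟩
  · rintro rfl
    have k1 := h1 _ (subset_convexHull ℝ _ hp)
    have k2 := h2 _ (subset_convexHull ℝ _ hq)
    simp only [fv, PiLp.zero_apply, zero_mul, add_zero] at k1 k2
    linarith
  · exact sep_sub hB hB' (hA.inter (isOpen_lt continuous_const (continuous_fv v)))
      (fun w hw => by_contra fun e =>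
        lt_asymm hw.2 (h1 w (subset_convexHull ℝ _ ⟨hw.1, e⟩))) ⟨hz, k⟩
  · exact sep_sub hA hA' (hB.inter (isOpen_lt (continuous_fv v) continuous_const))
      (fun w hw => by_contra fun e =>
        lt_asymm hw.2 (h2 w (subset_convexHull ℝ _ ⟨hw.1, e⟩))) ⟨hz, k⟩

end Pool.Agent.Lib.MP_fb520c_co
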